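import Mathlib
import Pool.Agent.H646.Sv1
import Pool.Agent.Cov.Res

set_option autoImplicit false
set_option maxHeartbeats 4000000

/-! # Selberg's upper bound for integers which avoid residue classes

Adapted from `Pool.Agent.Cov.SieveG` (at most two classes) to at most `K` classes, primes in `(K, y]`. -/

namespace Pool.Agent.N893.MC

open Finset ArithmeticFunction BoundingSieve Pool.Agent.H646 Pool.Agent.H646.Sv1M

/-- product of the primes which hit `l` -/
def Fb (K y : ℕ) (E : ℕ → Finset ℕ) (l : ℕ) : ℕ := ∏ p ∈ (PR K y).filter (fun p => l % p ∈ E p), p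

theorem prime_dvd_Fb {K y l p : ℕ} {E : ℕ → Finset ℕ} (hp : p.Prime) :
    p ∣ Fb K y E l ↔ p ∈ PR K y ∧ l % p ∈ E p := by
  unfold Fb
  rw [Prime.dvd_finsetProd_iff hp.prime]
  constructor
  · rintro ⟨q, hq, hpq⟩
    rw [mem_filter] at hq
    have : p = q := (Nat.prime_dvd_prime_iff_eq hp (PR_prime' hq.1).1).1 hpq
    subst this
    exact hq
  · rintro ⟨h1, h2⟩
    exact ⟨p, by rw [mem_filter]; exact ⟨h1, h2⟩, dvd_rfl⟩

theorem mem_PR_of_primeFactors {K y d p : ℕ} (hd : d ∣ ∏ p ∈ PR K y, p) (hp : p ∈ d.primeFactors) : p ∈ PR K y :=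
  mem_PR_of_dvd (Nat.prime_of_mem_primeFactors hp) ((Nat.dvd_of_mem_primeFactors hp).trans hd)

theorem dvd_Fb {K y l d : ℕ} {E : ℕ → Finset ℕ} (hd : d ∣ ∏ p ∈ PR K y, p) :
    d ∣ Fb K y E l ↔ ∀ p ∈ d.primeFactors, l % p ∈ E p := by
  have hsq : Squarefree d := (PR_squarefree K y).squarefree_of_dvd hd
  constructor
  · intro h p hp
    rw [Nat.mem_primeFactors] at hp
    exact ((prime_dvd_Fb hp.1).1 (hp.2.1.trans h)).2
  · intro h
    rw [← Nat.prod_primeFactors_of_squarefree hsq]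
    apply Finset.prod_dvd_prod_of_subset
    intro p hp
    rw [mem_filter]
    exact ⟨mem_PR_of_primeFactors hd hp, h p hp⟩

/-- allowed systems of residue sets -/
structure Sys (K y : ℕ) (E : ℕ → Finset ℕ) : Prop where
  sub : ∀ p ∈ PR K y, E p ⊆ range p
  pos : ∀ p ∈ PR K y, 1 ≤ (E p).card
  le : ∀ p ∈ PR K y, (E p).card ≤ K

noncomputable def nuE (E : ℕ → Finset ℕ) : ArithmeticFunction ℝ :=
  prodPrimeFactors (fun p => ((E p).card : ℝ) / p)

theorem nuE_prime {E : ℕ → Finset ℕ} {p : ℕ} (hp : p.Prime) : nuE E p = ((E p).card : ℝ) / p := by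
  unfold nuE
  rw [prodPrimeFactors_apply hp.ne_zero, hp.primeFactors, Finset.prod_singleton]

theorem nuE_apply {E : ℕ → Finset ℕ} {d : ℕ} (hd : d ≠ 0) :
    nuE E d = ∏ p ∈ d.primeFactors, ((E p).card : ℝ) / p := by
  unfold nuE
  rw [prodPrimeFactors_apply hd]

theorem card_lt {K y : ℕ} {E : ℕ → Finset ℕ} (hS : Sys K y E) {p : ℕ} (hp : p ∈ PR K y) :
    ((E p).card : ℝ) < p := by
  exact_mod_cast (hS.le p hp).trans_lt (PR_prime' hp).2.1

noncomputable def sg (Y K y : ℕ) (E : ℕ → Finset ℕ) (hS : Sys K y E) : BoundingSieve where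
  support := (Icc 1 Y).image (Fb K y E)
  prodPrimes := ∏ p ∈ PR K y, p
  prodPrimes_squarefree := PR_squarefree K y
  weights := fun n => (((Icc 1 Y).filter (fun l => Fb K y E l = n)).card : ℝ)
  weights_nonneg := fun _ => Nat.cast_nonneg _
  totalMass := Y
  nu := nuE E
  nu_mult := IsMultiplicative.prodPrimeFactors _
  nu_pos_of_prime := by
    intro p hp hd
    rw [nuE_prime hp]
    have h2 := hS.pos p (mem_PR_of_dvd hp hd)
    have : (0 : ℝ) < p := by exact_mod_cast hp.pos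
    have h3 : (0 : ℝ) < ((E p).card : ℝ) := by exact_mod_cast h2
    positivity
  nu_lt_one_of_prime := by
    intro p hp hd
    rw [nuE_prime hp]
    have h2 := card_lt hS (mem_PR_of_dvd hp hd)
    have : (0 : ℝ) < p := by exact_mod_cast hp.pos
    rw [div_lt_one this]
    exact h2

theorem sum_fib {Y K y : ℕ} {E : ℕ → Finset ℕ} (q : ℕ → Prop) [DecidablePred q] :
    ∑ n ∈ (Icc 1 Y).image (Fb K y E), (if q n then
      (((Icc 1 Y).filter (fun l => Fb K y E l = n)).card : ℝ) else 0)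
      = (((Icc 1 Y).filter (fun l => q (Fb K y E l))).card : ℝ) := by
  classical
  have h := Finset.card_eq_sum_card_fiberwise (f := Fb K y E)
    (s := (Icc 1 Y).filter (fun l => q (Fb K y E l))) (t := (Icc 1 Y).image (Fb K y E)) (by
      intro l hl
      rw [Finset.mem_coe, mem_filter] at hl
      rw [Finset.mem_coe, mem_image]
      exact ⟨l, hl.1, rfl⟩)
  rw [h]
  push_cast
  apply Finset.sum_congr rfl
  intro n _
  by_cases hq : q n
  · rw [if_pos hq]
    congr 2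
    ext l
    simp only [mem_filter]
    constructor
    · rintro ⟨h1, h2⟩; exact ⟨⟨h1, h2 ▸ hq⟩, h2⟩
    · rintro ⟨⟨h1, _⟩, h2⟩; exact ⟨h1, h2⟩
  · rw [if_neg hq]
    symm
    rw [Nat.cast_eq_zero, Finset.card_eq_zero, Finset.filter_eq_empty_iff]
    intro l hl h2
    rw [mem_filter] at hl
    exact hq (h2 ▸ hl.2)

theorem sg_multSum {Y K y d : ℕ} {E : ℕ → Finset ℕ} (hS : Sys K y E) (hd : d ∣ ∏ p ∈ PR K y, p) :
    (sg Y K y E hS).multSum d
      = (((Icc 1 Y).filter (fun l => ∀ p ∈ d.primeFactors, l % p ∈ E p)).card : ℝ) := by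
  unfold multSum
  show ∑ n ∈ (Icc 1 Y).image (Fb K y E), (if d ∣ n then
      (((Icc 1 Y).filter (fun l => Fb K y E l = n)).card : ℝ) else 0) = _
  rw [sum_fib]
  congr 2
  ext l
  simp only [mem_filter]
  rw [dvd_Fb hd]

theorem sg_rem {Y K y d : ℕ} {E : ℕ → Finset ℕ} (hS : Sys K y E) (hd : d ∣ ∏ p ∈ PR K y, p) :
    |(sg Y K y E hS).rem d| ≤ d := by
  have hsq : Squarefree d := (PR_squarefree K y).squarefree_of_dvd hd
  have hd0 : d ≠ 0 := hsq.ne_zero
  unfold BoundingSieve.rem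
  rw [sg_multSum hS hd]
  show |_ - nuE E d * (Y : ℝ)| ≤ _
  have h1 := Pool.Agent.Cov.count_residues d.primeFactors (fun p hp => Nat.prime_of_mem_primeFactors hp) E
    (fun p hp => hS.sub p (mem_PR_of_primeFactors hd hp)) Y
  rw [nuE_apply hd0, mul_comm]
  refine h1.trans ?_
  have h2 : (d : ℝ) = ∏ p ∈ d.primeFactors, (p : ℝ) := by
    conv_lhs => rw [← Nat.prod_primeFactors_of_squarefree hsq]
    push_cast; rfl
  rw [h2]
  apply Finset.prod_le_prod
  · intro p _; positivity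
  · intro p hp
    exact (card_lt hS (mem_PR_of_primeFactors hd hp)).le

theorem sg_terms {Y K y d : ℕ} {E : ℕ → Finset ℕ} (hS : Sys K y E) (hd : d ∣ ∏ p ∈ PR K y, p) :
    (sg Y K y E hS).selbergTerms d
      = ∏ p ∈ d.primeFactors, ((E p).card : ℝ) / ((p : ℝ) - (E p).card) := by
  have hsq : Squarefree d := (PR_squarefree K y).squarefree_of_dvd hd
  have hd0 : d ≠ 0 := hsq.ne_zero
  rw [selbergTerms_apply]
  show nuE E d * ∏ p ∈ d.primeFactors, (1 - nuE E p)⁻¹ = _
  rw [nuE_apply hd0, ← Finset.prod_mul_distrib]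
  apply Finset.prod_congr rfl
  intro p hp
  have hpp := Nat.prime_of_mem_primeFactors hp
  have h2 := card_lt hS (mem_PR_of_primeFactors hd hp)
  rw [nuE_prime hpp]
  have hp0 : (p : ℝ) ≠ 0 := by exact_mod_cast hpp.ne_zero
  have hpe : (p : ℝ) - (E p).card ≠ 0 := by linarith
  have h4 : 1 - ((E p).card : ℝ) / p = (p - (E p).card) / p := by field_simp
  rw [h4, inv_div]
  field_simp

theorem nu_inv_le {Y K y d : ℕ} {E : ℕ → Finset ℕ} (hS : Sys K y E) (hd : d ∣ ∏ p ∈ PR K y, p) :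
    ((sg Y K y E hS).nu d)⁻¹ ≤ d := by
  have hsq : Squarefree d := (PR_squarefree K y).squarefree_of_dvd hd
  change (nuE E d)⁻¹ ≤ d
  rw [nuE_apply hsq.ne_zero, ← prod_inv_distrib]
  have h2 : (d : ℝ) = ∏ p ∈ d.primeFactors, (p : ℝ) := by
    conv_lhs => rw [← Nat.prod_primeFactors_of_squarefree hsq]
    push_cast; rfl
  rw [h2]
  apply prod_le_prod
  · intro p _; positivity
  · intro p hp
    rw [inv_div]
    have h1 : (1:ℝ) ≤ (E p).card := by exact_mod_cast hS.pos p (mem_PR_of_primeFactors hd hp)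
    exact div_le_self (Nat.cast_nonneg p) h1

theorem sg_sifted {Y K y : ℕ} {E : ℕ → Finset ℕ} (hS : Sys K y E) :
    (((Icc 1 Y).filter (fun l => ∀ p ∈ PR K y, l % p ∉ E p)).card : ℝ) ≤ (sg Y K y E hS).siftedSum := by
  classical
  unfold siftedSum
  show _ ≤ ∑ n ∈ (Icc 1 Y).image (Fb K y E), (if Nat.Coprime (∏ p ∈ PR K y, p) n then
      (((Icc 1 Y).filter (fun l => Fb K y E l = n)).card : ℝ) else 0)
  rw [sum_fib (fun n => Nat.Coprime (∏ p ∈ PR K y, p) n)]
  have h : (Icc 1 Y).filter (fun l => ∀ p ∈ PR K y, l % p ∉ E p) ⊆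
      (Icc 1 Y).filter (fun l => Nat.Coprime (∏ p ∈ PR K y, p) (Fb K y E l)) := by
    intro l hl
    rw [mem_filter] at hl ⊢
    refine ⟨hl.1, ?_⟩
    rw [Nat.coprime_iff_gcd_eq_one]
    by_contra hg
    obtain ⟨p, hp, hpd⟩ := Nat.exists_prime_and_dvd hg
    have h2 := (prime_dvd_Fb hp).1 (hpd.trans (Nat.gcd_dvd_right _ _))
    exact hl.2 p h2.1 h2.2
  exact_mod_cast Finset.card_le_card h

/-- Selberg's upper bound sieve for general residue classes -/
theorem class_selberg (K y : ℕ) (E : ℕ → Finset ℕ) (hS : Sys K y E) (Y z : ℕ) (hz : 1 ≤ z) :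
    (((Icc 1 Y).filter (fun l => ∀ p ∈ PR K y, l % p ∉ E p)).card : ℝ) ≤
      Y / (∑ l ∈ (∏ p ∈ PR K y, p).divisors with l ≤ z,
        ∏ p ∈ l.primeFactors, ((E p).card : ℝ) / (p - (E p).card)) + (z : ℝ) ^ 6 := by
  have h4 := sg_sifted (Y := Y) hS
  have h5 := Pool.Agent.H646.Sel.selberg_bound (s := sg Y K y E hS) (z := z) hz
    (fun l hl => nu_inv_le hS hl) (fun l hl => sg_rem hS hl)
  have h6 : Pool.Agent.H646.Sel.GS (sg Y K y E hS) z =
      ∑ l ∈ (∏ p ∈ PR K y, p).divisors with l ≤ z,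
        ∏ p ∈ l.primeFactors, ((E p).card : ℝ) / (p - (E p).card) := by
    unfold Pool.Agent.H646.Sel.GS
    apply sum_congr rfl
    intro l hl
    rw [mem_filter] at hl
    exact sg_terms hS (Nat.dvd_of_mem_divisors hl.1)
  rw [h6] at h5
  have h7 : (sg Y K y E hS).totalMass = Y := rfl
  rw [h7] at h5
  linarith

end Pool.Agent.N893.MC
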