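import Mathlib
import Pool.Agent.N893.MC.ClassSieve
import Pool.Agent.H646.Sv2

set_option autoImplicit false
set_option maxHeartbeats 4000000

/-! # Upper bound for integers which avoid at most `K` residue classes modulo the primes `> K` -/

namespace Pool.Agent.N893.MC

open Finset Pool.Agent.H646 Pool.Agent.H646.Sv1M Pool.Agent.H646.Sv2M

theorem class_bound (K : ℕ) (hK : 1 ≤ K) : ∃ Q : ℕ, 1 ≤ Q ∧ ∃ Y₀ : ℕ, 3 ≤ Y₀ ∧ ∀ Y : ℕ, Y₀ ≤ Y →
    ∃ w : ℕ, 3 ≤ w ∧ (w : ℝ) ≤ Real.sqrt Y ∧ Real.log Y / (24 * Q) ≤ Real.log w ∧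
      ∀ E : ℕ → Finset ℕ, Sys K w E →
        (((Icc 1 Y).filter (fun l => ∀ p ∈ PR K w, l % p ∉ E p)).card : ℝ) ≤
          2 * Y * ∏ p ∈ PR K w, (1 - ((E p).card : ℝ) / p) + Real.sqrt Y := by
  obtain ⟨Q, hQ, y₀, hR⟩ := rankin_lower K hK
  have hQ' : (0 : ℝ) < 1 / (12 * Q) := by
    have : (0 : ℝ) < Q := by exact_mod_cast hQ
    positivity
  have hu : Filter.Tendsto (fun x : ℕ => (x : ℝ) ^ (1 / (12 * Q) : ℝ)) Filter.atTop Filter.atTop :=
    (tendsto_rpow_atTop hQ').comp tendsto_natCast_atTop_atTop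
  have hu1 := hu.eventually_ge_atTop (max (4 : ℝ) (y₀ + 2))
  obtain ⟨x₀, hx₀⟩ := Filter.eventually_atTop.mp (hu1.and (Filter.eventually_ge_atTop 3))
  refine ⟨Q, hQ, max 3 x₀, le_max_left _ _, fun x hx => ?_⟩
  obtain ⟨h2, h3⟩ := hx₀ x ((le_max_right _ _).trans hx)
  set u : ℝ := (x : ℝ) ^ (1 / (12 * Q) : ℝ) with hudef
  have hu4 : 4 ≤ u := le_trans (le_max_left _ _) h2
  have huy : (y₀ : ℝ) + 2 ≤ u := le_trans (le_max_right _ _) h2
  set y : ℕ := ⌊u⌋₊ with hy
  have hyu : (y : ℝ) ≤ u := Nat.floor_le (by linarith)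
  have hyu2 : u / 2 ≤ y := by
    have := Nat.lt_floor_add_one u
    linarith
  have hy0 : y₀ ≤ y := Nat.le_floor (by linarith)
  have hy3 : 3 ≤ y := Nat.le_floor (by push_cast; linarith)
  have hx0 : (0 : ℝ) < x := by exact_mod_cast (by omega : 0 < x)
  have hx1 : (1 : ℝ) ≤ x := by exact_mod_cast (by omega : 1 ≤ x)
  have hlogx : 0 < Real.log x := Real.log_pos (by exact_mod_cast (by omega : 1 < x))
  have hQr : (0 : ℝ) < Q := by exact_mod_cast hQ
  have hQ1 : (1 : ℝ) ≤ Q := by exact_mod_cast hQ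
  have hlogu : Real.log u = Real.log x / (12 * Q) := by
    rw [hudef, Real.log_rpow hx0]; ring
  have hlogy : Real.log x / (24 * Q) ≤ Real.log y := by
    have h4 : Real.log (u / 2) ≤ Real.log y := Real.log_le_log (by linarith) hyu2
    rw [Real.log_div (by linarith) (by norm_num)] at h4
    have h5 : 2 * Real.log 2 ≤ Real.log u := by
      have : Real.log (2 ^ 2) ≤ Real.log u := Real.log_le_log (by norm_num) (by linarith)
      rw [Real.log_pow] at this
      simpa using this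
    have h6 : Real.log x / (24 * Q) = Real.log u / 2 := by rw [hlogu]; field_simp; ring
    linarith
  set z : ℕ := y ^ Q with hz
  have hz1 : 1 ≤ z := Nat.one_le_pow _ _ (by omega)
  have hupow : u ^ (6 * Q) = (x : ℝ) ^ (1 / 2 : ℝ) := by
    rw [hudef, ← Real.rpow_natCast, ← Real.rpow_mul hx0.le]
    congr 1
    push_cast
    field_simp
    ring
  have hz6 : (z : ℝ) ^ 6 ≤ Real.sqrt x := by
    rw [Real.sqrt_eq_rpow, hz, ← hupow]
    push_cast
    rw [← pow_mul, mul_comm Q 6]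
    exact pow_le_pow_left₀ (by positivity) hyu _
  have hysq : (y : ℝ) ≤ Real.sqrt x := by
    rw [Real.sqrt_eq_rpow]
    refine hyu.trans ?_
    rw [hudef]
    apply Real.rpow_le_rpow_of_exponent_le hx1
    rw [div_le_div_iff₀ (by positivity) (by norm_num)]
    linarith
  refine ⟨y, hy3, hysq, hlogy, fun E hE => ?_⟩
  have hS := hR y hy0 (fun p => (E p).card) (fun p hp => ⟨hE.pos p hp, hE.le p hp⟩) z le_rfl
  set S := ∑ l ∈ (∏ p ∈ PR K y, p).divisors with l ≤ z,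
          ∏ p ∈ l.primeFactors, ((E p).card : ℝ) / (p - (E p).card) with hSdef
  set PP := ∏ p ∈ PR K y, (1 - ((E p).card : ℝ) / p) with hPP
  have hprod : ∏ p ∈ PR K y, (1 - ((E p).card : ℝ) / p)⁻¹ = PP⁻¹ := Finset.prod_inv_distrib _
  have hfac0 : ∀ p ∈ PR K y, 0 < 1 - ((E p).card : ℝ) / p := by
    intro p hp
    have h5 := (PR_prime' hp).2.1
    have h6 : (0 : ℝ) < p := by exact_mod_cast (by omega : 0 < p)
    rw [sub_pos, div_lt_one h6]
    exact card_lt hE hp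
  have hPP0 : 0 < PP := Finset.prod_pos hfac0
  simp only [hprod] at hS
  have hS0 : 0 < S := lt_of_lt_of_le (by positivity) hS
  have hinv : 1 / S ≤ 2 * PP := by
    rw [div_le_iff₀ hS0]
    have : 2 * PP * (1 / 2 * PP⁻¹) ≤ 2 * PP * S := mul_le_mul_of_nonneg_left hS (by positivity)
    have h4 : 2 * PP * (1 / 2 * PP⁻¹) = 1 := by field_simp
    linarith
  have hmain := class_selberg K y E hE x z hz1
  rw [← hSdef] at hmain
  have hxS : (x : ℝ) / S ≤ 2 * x * PP := by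
    rw [div_eq_mul_one_div]
    calc (x : ℝ) * (1 / S) ≤ x * (2 * PP) := mul_le_mul_of_nonneg_left hinv hx0.le
      _ = 2 * x * PP := by ring
  linarith

end Pool.Agent.N893.MC
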