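import Mathlib
import Pool.Agent.Y405.CQ.MER

set_option autoImplicit false
set_option maxHeartbeats 4000000

/-! # Mertens' theorem with the weights `gcd (p - 1, n)` -/

namespace Pool.Agent.N893.MC

open Finset

theorem gcd_eq_sum (m n : ℕ) (hn : 1 ≤ n) :
    (m.gcd n : ℝ) = ∑ d ∈ n.divisors, if d ∣ m then (Nat.totient d : ℝ) else 0 := by
  have h1 : m.gcd n = ∑ d ∈ (m.gcd n).divisors, Nat.totient d := (Nat.sum_totient _).symm
  have h2 : (m.gcd n).divisors = n.divisors.filter (fun d => d ∣ m) := by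
    ext d
    rw [mem_filter, Nat.mem_divisors, Nat.mem_divisors]
    constructor
    · rintro ⟨h, _⟩
      exact ⟨⟨h.trans (Nat.gcd_dvd_right _ _), by omega⟩, h.trans (Nat.gcd_dvd_left _ _)⟩
    · rintro ⟨⟨h, _⟩, h'⟩
      exact ⟨Nat.dvd_gcd h' h, (Nat.gcd_pos_of_pos_right _ hn).ne'⟩
  rw [← sum_filter, ← h2]
  exact_mod_cast h1

/-- Mertens' theorem for the primes `≡ 1 (mod d)` -/
theorem mertens_one (d : ℕ) (hd : 1 ≤ d) : ∃ C : ℝ, 0 ≤ C ∧ ∀ x : ℕ, 3 ≤ x →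
    |∑ p ∈ (Icc 1 x).filter Nat.Prime, (if d ∣ p - 1 then (Nat.totient d : ℝ) else 0) / p -
      Real.log (Real.log x)| ≤ C := by
  obtain ⟨C, hC, h⟩ := Pool.Agent.Y405.CQ.mertens_ap d hd (1 % d) (Nat.mod_lt _ hd) (by
    rcases Nat.eq_or_lt_of_le hd with h | h
    · rw [← h]; decide
    · rw [Nat.mod_eq_of_lt h]; exact Nat.coprime_one_left d)
  have hφ : (0 : ℝ) < Nat.totient d := by exact_mod_cast Nat.totient_pos.2 hd
  refine ⟨Nat.totient d * C, by positivity, fun x hx => ?_⟩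
  have h1 := h x hx
  have e1 : ∑ p ∈ (Icc 1 x).filter Nat.Prime, (if d ∣ p - 1 then (Nat.totient d : ℝ) else 0) / p =
      Nat.totient d * ∑ p ∈ (Icc 1 x).filter (fun p => p.Prime ∧ p % d = 1 % d), (1 : ℝ) / p := by
    rw [mul_sum]
    have e2 : (Icc 1 x).filter (fun p => p.Prime ∧ p % d = 1 % d) =
        ((Icc 1 x).filter Nat.Prime).filter (fun p => d ∣ p - 1) := by
      rw [filter_filter]
      apply filter_congr
      intro p hp
      have hp1 := (mem_Icc.1 hp).1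
      constructor
      · rintro ⟨h1, h2⟩
        exact ⟨h1, (Nat.modEq_iff_dvd' hp1).1 h2.symm⟩
      · rintro ⟨h1, h2⟩
        exact ⟨h1, ((Nat.modEq_iff_dvd' hp1).2 h2).symm⟩
    rw [e2, sum_filter (fun p => d ∣ p - 1)]
    apply sum_congr rfl
    intro p _
    split_ifs
    · ring
    · simp
  rw [e1]
  have e3 : (Nat.totient d : ℝ) * ∑ p ∈ (Icc 1 x).filter (fun p => p.Prime ∧ p % d = 1 % d), (1 : ℝ) / p -
      Real.log (Real.log x) = Nat.totient d * (∑ p ∈ (Icc 1 x).filter (fun p => p.Prime ∧ p % d = 1 % d), (1 : ℝ) / p -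
      1 / (Nat.totient d : ℝ) * Real.log (Real.log x)) := by
    field_simp
  rw [e3, abs_mul, abs_of_pos hφ]
  exact mul_le_mul_of_nonneg_left h1 hφ.le

theorem mertens_gcd (n : ℕ) (hn : 1 ≤ n) : ∃ C : ℝ, 0 ≤ C ∧ ∀ x : ℕ, 3 ≤ x →
    |∑ p ∈ (Icc 1 x).filter Nat.Prime, (((p - 1).gcd n : ℕ) : ℝ) / p -
      n.divisors.card * Real.log (Real.log x)| ≤ C := by
  have h : ∀ d : ℕ, ∃ C : ℝ, d ∈ n.divisors → 0 ≤ C ∧ ∀ x : ℕ, 3 ≤ x →
      |∑ p ∈ (Icc 1 x).filter Nat.Prime, (if d ∣ p - 1 then (Nat.totient d : ℝ) else 0) / p -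
      Real.log (Real.log x)| ≤ C := by
    intro d
    by_cases hd : d ∈ n.divisors
    · obtain ⟨C, h1, h2⟩ := mertens_one d (Nat.pos_of_mem_divisors hd)
      exact ⟨C, fun _ => ⟨h1, h2⟩⟩
    · exact ⟨0, fun h => absurd h hd⟩
  choose C hC using h
  refine ⟨∑ d ∈ n.divisors, C d, sum_nonneg fun d hd => (hC d hd).1, fun x hx => ?_⟩
  have e1 : ∑ p ∈ (Icc 1 x).filter Nat.Prime, (((p - 1).gcd n : ℕ) : ℝ) / p -
      n.divisors.card * Real.log (Real.log x) =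
      ∑ d ∈ n.divisors, (∑ p ∈ (Icc 1 x).filter Nat.Prime, (if d ∣ p - 1 then (Nat.totient d : ℝ) else 0) / p -
      Real.log (Real.log x)) := by
    rw [sum_sub_distrib, sum_const, nsmul_eq_mul, sum_comm]
    congr 1
    apply sum_congr rfl
    intro p _
    rw [gcd_eq_sum _ _ hn, sum_div]
  rw [e1]
  refine (abs_sum_le_sum_abs _ _).trans ?_
  exact sum_le_sum fun d hd => (hC d hd).2 x hx

end Pool.Agent.N893.MC
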