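import Mathlib
import Pool.Agent.N893.RK.Rankin

set_option autoImplicit false
set_option maxHeartbeats 4000000

/-! # The parameters of Rankin's choice, explicit -/

namespace Pool.Agent.N893.MC

open Finset Filter Pool.Agent.H318R2.Cr Pool.Agent.H398R2.RK Pool.Agent.N893.RK

open scoped Classical

/-- Rankin's parameters: `S` is the set of the primes in `(u, v]`, `log u` about `B log₂ y`, `log v` about
`log y log₃ y / (2 (B + 2) log₂ y)`; an `m ≤ y (log y)^B` whose prime factors are `> y`, in `S` or divide `W`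
is smooth, or has only prime factors `> y` and prime factors of `W`. -/
theorem rankin3 (B : ℕ) (hB1 : 1 ≤ B) (W : ℕ) (hW : 1 ≤ W) : ∃ y₀ : ℝ, 2 ≤ y₀ ∧ ∀ y : ℝ, y₀ ≤ y →
    ∃ u v : ℕ, 3 ≤ u ∧ u ≤ v ∧ (v : ℝ) ≤ y ∧
      B * Real.log (Real.log y) / 2 ≤ Real.log u ∧ Real.log u ≤ B * Real.log (Real.log y) ∧
      Real.log y * Real.log (Real.log (Real.log y)) / (2 * (B + 2) * Real.log (Real.log y)) / 2 ≤ Real.log v ∧
      Real.log v ≤ Real.log y * Real.log (Real.log (Real.log y)) / (2 * (B + 2) * Real.log (Real.log y)) ∧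
      (∀ p ∈ (Ioc u v).filter Nat.Prime, p.Prime ∧ (Real.log y) ^ B < (p : ℝ) ∧ (p : ℝ) ≤ y) ∧
      (∀ L : ℕ, y ≤ L → (((Finset.Icc 1 L).filter (Smo (2 * (B + 2)) y)).card : ℝ) ≤
        L / (Real.log y) ^ B) ∧
      (∀ m : ℕ, 1 ≤ m → (m : ℝ) ≤ y * (Real.log y) ^ B →
        (∀ p : ℕ, p.Prime → p ∣ m → (y < p ∨ p ∈ (Ioc u v).filter Nat.Prime ∨ p ∣ W)) →
          Smo (2 * (B + 2)) y m ∨ (∀ p : ℕ, p.Prime → p ∣ m → (y < p ∨ p ∣ W))) := by
  obtain ⟨y₁, hsm⟩ := smooth_count_B B
  obtain ⟨t₀, hev⟩ := ev_exp B 1 one_pos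
  have hBr : (1 : ℝ) ≤ B := by exact_mod_cast hB1
  refine ⟨max (max 2 (Real.exp W)) (max y₁ (Real.exp (Real.exp t₀))),
    (le_max_left _ _).trans (le_max_left _ _), fun y hy => ?_⟩
  have hyW := (le_max_right _ _).trans ((le_max_left _ _).trans hy)
  have hsm' := hsm y ((le_max_left _ _).trans ((le_max_right _ _).trans hy))
  have hy' := (le_max_right _ _).trans ((le_max_right _ _).trans hy)
  have hy0 : 0 < y := (Real.exp_pos _).trans_le hy'
  have hL1' : Real.exp t₀ ≤ Real.log y := by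
    rw [← Real.log_exp (Real.exp t₀)]; exact Real.log_le_log (Real.exp_pos _) hy'
  have hly : 0 < Real.log y := (Real.exp_pos _).trans_le hL1'
  have hSmo : Smo (2 * (B + 2)) y = fun m => ∀ p : ℕ, p.Prime → p ∣ m →
      Real.log p ≤ Real.log y * Real.log (Real.log (Real.log y)) / (2 * (B + 2) * Real.log (Real.log y)) :=
    rfl
  set t := Real.log (Real.log y) with ht
  have htt : t₀ ≤ t := by
    rw [← Real.log_exp t₀]; exact Real.log_le_log (Real.exp_pos _) hL1'
  obtain ⟨h1, h2, h5, h3, h4, _⟩ := hev t htt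
  have hLe : Real.log y = Real.exp t := by rw [ht, Real.exp_log hly]
  have hye : y = Real.exp (Real.exp t) := by rw [← hLe, Real.exp_log hy0]
  set V0 := Real.log y * Real.log t / (2 * (B + 2) * t) with hV0
  have ht0 : 0 < t := by linarith
  have hlt0 : 0 < Real.log t := by linarith
  have h3' : 2 * (B + 2) * (B * t ^ 2) ≤ Real.exp t := by
    refine le_trans ?_ h3
    have e1 : 2 * (B + 2) * (B * t ^ 2) = (2 * (B + 2) * B) * t ^ 2 := by ring
    rw [e1]
    have e2 : 2 * (B + 2) * (B : ℝ) ≤ (B + 5 : ℝ) * 20 * (B + 5) := by nlinarith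
    gcongr
  have hBt : B * t ≤ Real.exp t := by
    refine le_trans ?_ h3'
    have : t ≤ t ^ 2 := by nlinarith
    have e : 0 ≤ (B : ℝ) * t ^ 2 := by positivity
    nlinarith
  -- V0 ≥ B t
  have hV1 : B * t ≤ V0 := by
    rw [hV0, le_div_iff₀ (by positivity), hLe]
    have e : B * t * (2 * (B + 2) * t) = 2 * (B + 2) * (B * t ^ 2) := by ring
    rw [e]
    nlinarith [Real.exp_pos t]
  have hV1le : V0 ≤ Real.log y := by
    rw [hV0, div_le_iff₀ (by positivity), hLe]
    have : Real.log t ≤ 2 * (B + 2) * t := by nlinarith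
    nlinarith [Real.exp_pos t]
  set v₀ : ℝ := (Real.log y) ^ B with hv₀
  have hv₀e : v₀ = Real.exp (B * t) := by
    rw [hv₀, hLe, ← Real.exp_nat_mul]
  have hv₀0 : 0 < v₀ := by positivity
  have hly100 : 100 ≤ Real.log y := by rw [hLe]; exact h4
  have hv₀log : Real.log y ≤ v₀ := by
    calc Real.log y = Real.log y ^ 1 := (pow_one _).symm
      _ ≤ _ := pow_le_pow_right₀ (by linarith) hB1
  have hv₀big : 100 ≤ v₀ := hly100.trans hv₀log
  have hv₀y : v₀ ≤ y := by
    rw [hv₀e, hye]; exact Real.exp_le_exp.2 hBt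
  set u : ℕ := ⌊v₀⌋₊ with hu
  set v : ℕ := ⌊Real.exp V0⌋₊ with hv
  have huv : u ≤ v := by
    rw [hu, hv]; apply Nat.floor_le_floor; rw [hv₀e]; exact Real.exp_le_exp.2 hV1
  have hu2 : 2 ≤ u := by
    rw [hu, Nat.le_floor_iff hv₀0.le]; push_cast; linarith
  have hvle : (v : ℝ) ≤ Real.exp V0 := Nat.floor_le (Real.exp_pos _).le
  have hule : (u : ℝ) ≤ v₀ := Nat.floor_le hv₀0.le
  have hv0 : (0 : ℝ) < v := by exact_mod_cast (by omega : 0 < v)
  have hu0 : (0 : ℝ) < u := by exact_mod_cast (by omega : 0 < u)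
  have hlu : Real.log u ≤ B * t := by
    rw [← Real.log_exp (B * t), ← hv₀e]; exact Real.log_le_log hu0 hule
  have hlu0 : 0 < Real.log u := Real.log_pos (by exact_mod_cast (by omega : 1 < u))
  have hlv0 : 0 < Real.log v := Real.log_pos (by exact_mod_cast (by omega : 1 < v))
  have hlv : V0 / 2 ≤ Real.log v := by
    have h7 : Real.exp V0 < v + 1 := Nat.lt_floor_add_one _
    have h8 : (2 : ℝ) ≤ v := by exact_mod_cast (by omega : 2 ≤ v)
    have h9 : Real.exp V0 ≤ (v : ℝ) ^ 2 := by nlinarith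
    have h10 := Real.log_le_log (Real.exp_pos _) h9
    rw [Real.log_exp, Real.log_pow] at h10
    push_cast at h10; linarith
  set S : Finset ℕ := (Ioc u v).filter Nat.Prime with hS
  have hSv : ∀ p ∈ S, v₀ < (p : ℝ) := by
    intro p hp
    rw [hS, mem_filter, mem_Ioc] at hp
    have h1 : u < p := hp.1.1
    rwa [hu, Nat.floor_lt hv₀0.le] at h1
  have hSmem : ∀ p : ℕ, p.Prime → (p ∈ S ↔ v₀ < (p : ℝ) ∧ Real.log p ≤ V0) := by
    intro p hp
    have hp0 : (0 : ℝ) < p := by exact_mod_cast hp.pos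
    rw [hS, mem_filter, mem_Ioc, Real.log_le_iff_le_exp hp0, hu, Nat.floor_lt hv₀0.le, hv,
      Nat.le_floor_iff (Real.exp_pos _).le]
    constructor
    · rintro ⟨⟨h', h⟩, _⟩; exact ⟨h', h⟩
    · rintro ⟨h, h'⟩; exact ⟨⟨h, h'⟩, hp⟩
  have hSp : ∀ p ∈ S, p.Prime ∧ v₀ < (p : ℝ) ∧ (p : ℝ) ≤ y := by
    intro p hp
    have hpp := (mem_filter.1 hp).2
    refine ⟨hpp, hSv p hp, ?_⟩
    have hp0 : (0 : ℝ) < p := by exact_mod_cast hpp.pos
    have h7 := ((hSmem p hpp).1 hp).2
    rw [← Real.log_le_log_iff hp0 hy0]; linarith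
  have hvy : (v : ℝ) ≤ y := by
    calc (v : ℝ) ≤ Real.exp V0 := hvle
      _ ≤ Real.exp (Real.log y) := Real.exp_le_exp.2 hV1le
      _ = y := Real.exp_log hy0
  have hu3 : 3 ≤ u := by
    rw [hu, Nat.le_floor_iff hv₀0.le]; push_cast; linarith
  have hlu2 : B * t / 2 ≤ Real.log u := by
    have h7 : v₀ < u + 1 := Nat.lt_floor_add_one _
    have h8 : (2 : ℝ) ≤ u := by exact_mod_cast hu2
    have h9 : v₀ ≤ (u : ℝ) ^ 2 := by nlinarith
    have h10 := Real.log_le_log hv₀0 h9
    rw [hv₀e, Real.log_exp, Real.log_pow] at h10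
    push_cast at h10; linarith
  have hlvle : Real.log v ≤ V0 := by
    rw [← Real.log_exp V0]; exact Real.log_le_log hv0 hvle
  refine ⟨u, v, hu3, huv, hvy, hlu2, hlu, hlv, hlvle, hSp, hsm', ?_⟩
  · intro m hm1 hmL hfac
    by_cases hall : Smo (2 * (B + 2)) y m
    · exact Or.inl hall
    · right
      rw [hSmo] at hall
      push Not at hall
      obtain ⟨p, hp, hd, hlp⟩ := hall
      have hlW : Real.log W ≤ V0 := by
        have hW0 : (0 : ℝ) < W := by exact_mod_cast hW
        have e1 : (W : ℝ) ≤ Real.log y := by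
          rw [← Real.log_exp (W : ℝ)]; exact Real.log_le_log (Real.exp_pos _) hyW
        have e2 : Real.log W ≤ t := by rw [ht]; exact Real.log_le_log hW0 e1
        have e3 : t ≤ B * t := by nlinarith
        linarith
      have hpy : y < p := by
        rcases hfac p hp hd with h | h | h
        · exact h
        · exact absurd ((hSmem p hp).1 h).2 (not_le.2 hlp)
        · exfalso
          have h1 := Nat.le_of_dvd hW h
          have hp0 : (0 : ℝ) < p := by exact_mod_cast hp.pos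
          have h2 : Real.log p ≤ Real.log W := Real.log_le_log hp0 (by exact_mod_cast h1)
          linarith
      obtain ⟨m', rfl⟩ := hd
      intro q hq hqd
      rcases (Nat.Prime.dvd_mul hq).1 hqd with hqp | hqm
      · left
        rw [(Nat.prime_dvd_prime_iff_eq hq hp).1 hqp]
        exact hpy
      · have hm'0 : m' ≠ 0 := by rintro rfl; simp at hm1
        have hqle : q ≤ m' := Nat.le_of_dvd (Nat.pos_of_ne_zero hm'0) hqm
        have hm'le : (m' : ℝ) < v₀ := by
          have h7 : (p : ℝ) * m' ≤ y * v₀ := by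
            have : ((p * m' : ℕ) : ℝ) = (p : ℝ) * m' := by push_cast; ring
            rw [← this]; exact hmL
          have h8 : (0 : ℝ) < m' := by exact_mod_cast Nat.pos_of_ne_zero hm'0
          have h9 : y * m' < y * v₀ := by
            calc y * m' < p * m' := by gcongr
              _ ≤ y * v₀ := h7
          exact lt_of_mul_lt_mul_left h9 hy0.le
        have hqv : (q : ℝ) < v₀ := lt_of_le_of_lt (by exact_mod_cast hqle) hm'le
        rcases hfac q hq (hqm.mul_left p) with h | h | h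
        · left; exact h
        · have := hSv q h; linarith
        · right; exact h

end Pool.Agent.N893.MC
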