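import Mathlib

set_option autoImplicit false
set_option maxHeartbeats 4000000

/-! # The number of `n`-th roots modulo a prime -/

namespace Pool.Agent.N893.MC

open Finset

/-- the classes `s` with `s ^ n ≡ c ^ n (mod p)` -/
def Zr (p n : ℕ) (c : ℤ) : Finset ℕ := (range p).filter (fun s : ℕ => (p : ℤ) ∣ c ^ n - (s : ℤ) ^ n)

theorem mem_Zr {p n : ℕ} {c : ℤ} {s : ℕ} : s ∈ Zr p n c ↔ s < p ∧ (p : ℤ) ∣ c ^ n - (s : ℤ) ^ n := by
  unfold Zr
  rw [mem_filter, mem_range]

theorem card_Zr (p n : ℕ) (hp : p.Prime) (hn : 1 ≤ n) (c : ℤ) (hc : ¬ (p : ℤ) ∣ c) :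
    (Zr p n c).card = (p - 1).gcd n := by
  have : Fact p.Prime := ⟨hp⟩
  have hc0 : (c : ZMod p) ≠ 0 := by
    rw [Ne, ZMod.intCast_zmod_eq_zero_iff_dvd]; exact hc
  set c' : (ZMod p)ˣ := Units.mk0 (c : ZMod p) hc0 with hc'
  set K : Finset (ZMod p)ˣ := univ.filter (fun u => u ^ n = 1) with hK
  have hKc : K.card = (p - 1).gcd n := by
    have h1 := IsCyclic.card_powMonoidHom_ker (G := (ZMod p)ˣ) n
    rw [Nat.card_eq_fintype_card (α := (ZMod p)ˣ), ZMod.card_units] at h1
    rw [← h1, Nat.card_eq_fintype_card, Fintype.card_subtype, hK]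
    congr 1
    ext u
    simp only [mem_filter, mem_univ, true_and, MonoidHom.mem_ker, powMonoidHom_apply]
  have hiff : ∀ s : ℕ, (p : ℤ) ∣ c ^ n - (s : ℤ) ^ n ↔ (c : ZMod p) ^ n = (s : ZMod p) ^ n := by
    intro s
    rw [← ZMod.intCast_zmod_eq_zero_iff_dvd]
    push_cast
    rw [sub_eq_zero]
  rw [← hKc]
  apply le_antisymm
  · -- from the classes to the units
    apply card_le_card_of_injOn (fun s : ℕ => if h : (s : ZMod p) ≠ 0 then c'⁻¹ * Units.mk0 (s : ZMod p) h else 1)
    · intro s hs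
      rw [mem_coe, mem_Zr, hiff] at hs
      have hs0 : (s : ZMod p) ≠ 0 := by
        intro h
        rw [h, zero_pow (by omega)] at hs
        exact hc0 (pow_eq_zero_iff (by omega : n ≠ 0) |>.1 hs.2)
      rw [mem_coe, hK, mem_filter]
      refine ⟨mem_univ _, ?_⟩
      simp only [dif_pos hs0]
      rw [mul_pow, inv_pow, inv_mul_eq_one]
      apply Units.ext
      push_cast
      simp only [hc', Units.val_mk0]
      exact hs.2
    · intro s hs s' hs' h
      rw [mem_coe, mem_Zr, hiff] at hs hs'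
      have hs0 : (s : ZMod p) ≠ 0 := by
        intro h
        rw [h, zero_pow (by omega)] at hs
        exact hc0 (pow_eq_zero_iff (by omega : n ≠ 0) |>.1 hs.2)
      have hs0' : (s' : ZMod p) ≠ 0 := by
        intro h
        rw [h, zero_pow (by omega)] at hs'
        exact hc0 (pow_eq_zero_iff (by omega : n ≠ 0) |>.1 hs'.2)
      simp only [dif_pos hs0, dif_pos hs0'] at h
      have h1 := mul_left_cancel h
      have h2 : (s : ZMod p) = (s' : ZMod p) := by
        have := congrArg (fun u : (ZMod p)ˣ => (u : ZMod p)) h1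
        simpa using this
      rw [ZMod.natCast_eq_natCast_iff'] at h2
      rwa [Nat.mod_eq_of_lt hs.1, Nat.mod_eq_of_lt hs'.1] at h2
  · apply card_le_card_of_injOn (fun u : (ZMod p)ˣ => ((c' * u : (ZMod p)ˣ) : ZMod p).val)
    · intro u hu
      rw [mem_coe, hK, mem_filter] at hu
      rw [mem_coe, mem_Zr, hiff]
      refine ⟨ZMod.val_lt _, ?_⟩
      rw [ZMod.natCast_zmod_val]
      have h1 : ((u : ZMod p)) ^ n = 1 := by
        have := congrArg (fun u : (ZMod p)ˣ => (u : ZMod p)) hu.2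
        simpa using this
      rw [Units.val_mul, mul_pow, h1, mul_one, hc', Units.val_mk0]
    · intro u _ u' _ h
      have h1 := ZMod.val_injective p h
      have h2 : c' * u = c' * u' := Units.ext h1
      exact mul_left_cancel h2

theorem Zr_le (p n : ℕ) (hp : p.Prime) (hn : 1 ≤ n) (c : ℤ) (hc : ¬ (p : ℤ) ∣ c) :
    1 ≤ (Zr p n c).card ∧ (Zr p n c).card ≤ n := by
  rw [card_Zr p n hp hn c hc]
  exact ⟨Nat.gcd_pos_of_pos_right _ hn, Nat.gcd_le_right _ hn⟩

end Pool.Agent.N893.MC
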