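import Mathlib
import Pool.Agent.N893.MC.ClassBound
import Pool.Agent.N893.MC.Rankin3
import Pool.Agent.N893.MC.Roots
import Pool.Agent.N893.MC.Mert

set_option autoImplicit false
set_option maxHeartbeats 4000000

/-! # Integers `t` for which `t ^ n - 1` has few prime factors -/

namespace Pool.Agent.N893.MC

open Finset Filter Pool.Agent.H646 Pool.Agent.H646.Sv1M

open scoped Classical

/-- `t` is not removed by the special classes. -/
def Okn (n W : ℕ) (y : ℝ) (S : Finset ℕ) (t : ℤ) : Prop :=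
  ∀ p : ℕ, p.Prime → ¬ p ∣ W → (p : ℝ) ≤ y → p ∉ S → ¬ (p : ℤ) ∣ t ^ n - 1

/-- `1` if `n` is odd, `2` if `n` is even -/
def kap (n : ℕ) : ℕ := if Even n then 2 else 1

/-- the rational zeros of `t ^ n - 1` -/
def Rr (n : ℕ) : Finset ℤ := if Even n then {1, -1} else {1}

theorem kap_dvd (n : ℕ) : kap n ∣ n := by
  unfold kap
  split_ifs with h
  · exact h.two_dvd
  · exact one_dvd _

theorem kap_pos (n : ℕ) : 1 ≤ kap n := by
  unfold kap; split_ifs <;> norm_num

theorem Rr_card (n : ℕ) : (Rr n).card ≤ 2 := by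
  unfold Rr; split_ifs
  · exact card_le_two
  · simp

theorem Rr_abs (n : ℕ) : ∀ r ∈ Rr n, r = 1 ∨ r = -1 := by
  intro r hr
  unfold Rr at hr
  split_ifs at hr
  · simpa using hr
  · left; simpa using hr

theorem Rr_pow (n : ℕ) : ∀ r ∈ Rr n, r ^ n = 1 := by
  intro r hr
  unfold Rr at hr
  split_ifs at hr with h
  · simp only [mem_insert, mem_singleton] at hr
    rcases hr with rfl | rfl
    · simp
    · exact h.neg_one_pow
  · simp only [mem_singleton] at hr
    rw [hr, one_pow]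

/-- `p` divides `t ^ κ - 1` only if it divides some `t - r` -/
theorem Rr_kap (n : ℕ) (p : ℕ) (hp : p.Prime) (t : ℤ) (h : (p : ℤ) ∣ t ^ (kap n) - 1) :
    ∃ r ∈ Rr n, (p : ℤ) ∣ t - r := by
  unfold kap at h
  unfold Rr
  split_ifs at h ⊢ with hn
  · have h1 : t ^ 2 - 1 = (t - 1) * (t - -1) := by ring
    rw [h1] at h
    rcases (Nat.prime_iff_prime_int.1 hp).dvd_or_dvd h with h | h
    · exact ⟨1, by simp, h⟩
    · exact ⟨-1, by simp, h⟩
  · exact ⟨1, by simp, by simpa using h⟩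

/-- the classes of the sieve -/
noncomputable def Ecl (n : ℕ) (S : Finset ℕ) (ε : ℤ) (p : ℕ) : Finset ℕ :=
  if p ∈ S then Zr p (kap n) ε else Zr p n ε

theorem not_dvd_eps (p : ℕ) (hp : p.Prime) (ε : ℤ) (hε : ε = 1 ∨ ε = -1) : ¬ (p : ℤ) ∣ ε := by
  intro h
  have h1 : (p : ℤ) ∣ 1 := by
    rcases hε with rfl | rfl
    · exact h
    · simpa using h
  have := Int.eq_one_of_dvd_one (by positivity) h1
  have := hp.two_le
  omega

theorem Ecl_sys (n : ℕ) (hn : 1 ≤ n) (S : Finset ℕ) (ε : ℤ) (hε : ε = 1 ∨ ε = -1) (K w : ℕ) (hK : n ≤ K) :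
    Sys K w (Ecl n S ε) := by
  have hκn : kap n ≤ n := Nat.le_of_dvd hn (kap_dvd n)
  refine ⟨fun p hp => ?_, fun p hp => ?_, fun p hp => ?_⟩
  · unfold Ecl
    split_ifs
    · exact filter_subset _ _
    · exact filter_subset _ _
  · have hpp := (PR_prime' hp).1
    unfold Ecl
    split_ifs
    · exact (Zr_le p _ hpp (kap_pos n) ε (not_dvd_eps p hpp ε hε)).1
    · exact (Zr_le p _ hpp hn ε (not_dvd_eps p hpp ε hε)).1
  · have hpp := (PR_prime' hp).1
    unfold Ecl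
    split_ifs
    · exact (Zr_le p _ hpp (kap_pos n) ε (not_dvd_eps p hpp ε hε)).2.trans (by omega)
    · exact (Zr_le p _ hpp hn ε (not_dvd_eps p hpp ε hε)).2.trans hK

/-- membership of `x % p` in `Zr p k ε` -/
theorem mod_mem_Zr (p k : ℕ) (ε : ℤ) (hε : ε = 1 ∨ ε = -1) (x : ℕ) (h : x % p ∈ Zr p k ε) :
    (p : ℤ) ∣ (ε * x) ^ k - 1 := by
  rw [mem_Zr] at h
  have h1 := h.2
  have h2 : (p : ℤ) ∣ (x : ℤ) - ((x % p : ℕ) : ℤ) := by
    rw [Int.natCast_mod]; exact Int.dvd_self_sub_emod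
  have h3 : (p : ℤ) ∣ (x : ℤ) ^ k - ((x % p : ℕ) : ℤ) ^ k := h2.trans (sub_dvd_pow_sub_pow _ _ k)
  have h4 : (p : ℤ) ∣ ε ^ k - (x : ℤ) ^ k := by
    have := dvd_sub h1 h3
    refine this.trans (dvd_of_eq ?_)
    ring
  have h5 := (h4.mul_left (ε ^ k)).neg_right
  refine h5.trans (dvd_of_eq ?_)
  have h6 : ε ^ k * ε ^ k = 1 := by
    rw [← mul_pow]
    rcases hε with rfl | rfl <;> simp
  rw [mul_sub, h6, mul_pow]
  ring

theorem card_sideM (n : ℕ) (W : ℕ) (hW : 1 ≤ W) (y : ℝ) (S : Finset ℕ)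
    (ε : ℤ) (hε : ε = 1 ∨ ε = -1) (L M : ℕ) (hM : L + 1 ≤ M) (K w : ℕ) (hKW : W ≤ K) (hwy : (w : ℝ) ≤ y)
    (Sm : ℕ → Prop) (hdich : ∀ m : ℕ, 1 ≤ m → m ≤ M →
      (∀ p : ℕ, p.Prime → p ∣ m → (y < p ∨ p ∈ S ∨ p ∣ W)) → Sm m ∨
        (∀ p : ℕ, p.Prime → p ∣ m → (y < p ∨ p ∣ W))) :
    ((Finset.Icc (-(L : ℤ)) L).filter (fun t => Okn n W y S t ∧ 1 < ε * t)).card ≤
      2 * ((Finset.Icc 1 M).filter Sm).card +
        ((Icc 1 L).filter (fun l => ∀ p ∈ PR K w, l % p ∉ Ecl n S ε p)).card := by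
  obtain ⟨Q, hQ⟩ : ∃ Q : Finset ℤ, Q = (Finset.Icc (-(L : ℤ)) L).filter
    (fun t => Okn n W y S t ∧ 1 < ε * t) := ⟨_, rfl⟩
  rw [← hQ]
  obtain ⟨f, hf⟩ : ∃ f : ℤ → ℕ, ∀ t, f t = (ε * t).toNat := ⟨fun t => (ε * t).toNat, fun t => rfl⟩
  have hfz : ∀ t ∈ Q, (f t : ℤ) = ε * t := by
    intro t ht
    rw [hQ, mem_filter] at ht
    rw [hf]
    exact Int.toNat_of_nonneg (by linarith [ht.2.2])
  have hinj : Set.InjOn f Q := by
    intro t ht t' ht' h
    have h1 := hfz t (mem_coe.1 ht)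
    have h2 := hfz t' (mem_coe.1 ht')
    rw [h, h2] at h1
    rcases hε with rfl | rfl <;> linarith
  have hsub : Q.image f ⊆ ((Rr n).biUnion (fun r => ((Finset.Icc 1 M).filter Sm).image
      (fun m : ℕ => ((m : ℤ) + ε * r).toNat))) ∪
      (Icc 1 L).filter (fun l => ∀ p ∈ PR K w, l % p ∉ Ecl n S ε p) := by
    intro x hx
    rw [mem_image] at hx
    obtain ⟨t, ht, rfl⟩ := hx
    have h1 := hfz t ht
    rw [hQ, mem_filter, mem_Icc] at ht
    obtain ⟨⟨ht1, ht2⟩, hok, htu⟩ := ht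
    have hfL : f t ≤ L := by
      have : (f t : ℤ) ≤ L := by
        rw [h1]
        rcases hε with rfl | rfl <;> linarith
      exact_mod_cast this
    have hf2 : 2 ≤ f t := by
      have : (2 : ℤ) ≤ f t := by rw [h1]; linarith
      exact_mod_cast this
    have htf : t = ε * f t := by
      rw [h1]
      rcases hε with rfl | rfl <;> ring
    -- the numbers `ε (t - r)`
    have hm0 : ∀ r ∈ Rr n, 1 ≤ ε * (t - r) := by
      intro r hr
      rcases Rr_abs n r hr with rfl | rfl <;> rcases hε with rfl | rfl <;> linarith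
    have hmz : ∀ r ∈ Rr n, (((ε * (t - r)).toNat : ℕ) : ℤ) = ε * (t - r) := fun r hr =>
      Int.toNat_of_nonneg (by linarith [hm0 r hr])
    have hdv : ∀ r ∈ Rr n, ∀ p : ℕ, p ∣ (ε * (t - r)).toNat ↔ (p : ℤ) ∣ t - r := by
      intro r hr p
      rw [← Int.natCast_dvd_natCast, hmz r hr]
      rcases hε with rfl | rfl
      · simp
      · rw [neg_one_mul, dvd_neg]
    have hfac : ∀ r ∈ Rr n, ∀ p : ℕ, p.Prime → p ∣ (ε * (t - r)).toNat → (y < p ∨ p ∈ S ∨ p ∣ W) := by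
      intro r hr p hp hd
      by_contra hcon
      push Not at hcon
      obtain ⟨h3, h4, h5⟩ := hcon
      apply hok p hp h5 h3 h4
      have h6 := ((hdv r hr p).1 hd).trans (sub_dvd_pow_sub_pow t r n)
      rwa [Rr_pow n r hr] at h6
    have hle : ∀ r ∈ Rr n, (ε * (t - r)).toNat ≤ M := by
      intro r hr
      have h3 : (((ε * (t - r)).toNat : ℕ) : ℤ) ≤ L + 1 := by
        rw [hmz r hr]
        rcases Rr_abs n r hr with rfl | rfl <;> rcases hε with rfl | rfl <;> linarith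
      have h4 : (ε * (t - r)).toNat ≤ L + 1 := by exact_mod_cast h3
      omega
    rw [mem_union]
    by_cases hall : ∃ r ∈ Rr n, Sm (ε * (t - r)).toNat
    · left
      obtain ⟨r, hr, hs⟩ := hall
      rw [mem_biUnion]
      refine ⟨r, hr, ?_⟩
      rw [mem_image]
      refine ⟨(ε * (t - r)).toNat, mem_filter.2 ⟨mem_Icc.2 ⟨?_, hle r hr⟩, hs⟩, ?_⟩
      · have := hm0 r hr
        omega
      · rw [hmz r hr, hf]
        congr 1
        ring
    · right
      push Not at hall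
      rw [mem_filter, mem_Icc]
      refine ⟨⟨by omega, hfL⟩, fun p hpPR hmem => ?_⟩
      obtain ⟨hp, hKp, hpw⟩ := PR_prime' hpPR
      have hpy : (p : ℝ) ≤ y := by
        have : (p : ℝ) ≤ w := by exact_mod_cast hpw
        linarith
      have hpW : ¬ p ∣ W := by
        intro h
        have := Nat.le_of_dvd hW h
        omega
      unfold Ecl at hmem
      split_ifs at hmem with hpS
      · have h7 := mod_mem_Zr p _ ε hε _ hmem
        rw [← htf] at h7
        obtain ⟨r, hr, hrd⟩ := Rr_kap n p hp t h7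
        rcases hdich _ (by have := hm0 r hr; omega) (hle r hr) (hfac r hr) with h | h
        · exact hall r hr h
        · rcases h p hp ((hdv r hr p).2 hrd) with h' | h'
          · linarith
          · exact hpW h'
      · have h7 := mod_mem_Zr p _ ε hε _ hmem
        rw [← htf] at h7
        exact hok p hp hpW hpy hpS h7
  rw [← card_image_of_injOn hinj]
  refine (card_le_card hsub).trans ((card_union_le _ _).trans ?_)
  refine Nat.add_le_add_right ?_ _
  refine card_biUnion_le.trans ?_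
  calc ∑ r ∈ Rr n, (((Finset.Icc 1 M).filter Sm).image (fun m : ℕ => ((m : ℤ) + ε * r).toNat)).card
      ≤ ∑ r ∈ Rr n, ((Finset.Icc 1 M).filter Sm).card := sum_le_sum fun r _ => card_image_le
    _ = (Rr n).card * ((Finset.Icc 1 M).filter Sm).card := by rw [sum_const, smul_eq_mul]
    _ ≤ _ := Nat.mul_le_mul_right _ (Rr_card n)

end Pool.Agent.N893.MC
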