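import Mathlib
import Pool.Agent.N893.MC.Side
import Pool.Agent.N893.RK.Greedy

set_option autoImplicit false
set_option maxHeartbeats 4000000

/-! # The sums over the primes and the greedy choice -/

namespace Pool.Agent.N893.MC

open Finset Filter Pool.Agent.H646 Pool.Agent.H646.Sv1M Pool.Agent.N893.RK

open scoped Classical

theorem sum_gcd_Ioc (n : ℕ) (hn : 1 ≤ n) : ∃ C : ℝ, 0 ≤ C ∧ ∀ u v : ℕ, 3 ≤ u → u ≤ v →
    |∑ p ∈ (Ioc u v).filter Nat.Prime, (((p - 1).gcd n : ℕ) : ℝ) / p -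
      n.divisors.card * (Real.log (Real.log v) - Real.log (Real.log u))| ≤ C := by
  obtain ⟨C, hC, h⟩ := mertens_gcd n hn
  refine ⟨2 * C, by positivity, fun u v hu huv => ?_⟩
  have h1 := h u hu
  have h2 := h v (by omega)
  have h3 : (Icc 1 v).filter Nat.Prime = (Icc 1 u).filter Nat.Prime ∪ (Ioc u v).filter Nat.Prime := by
    rw [← filter_union]
    congr 1
    ext p
    rw [mem_union, mem_Icc, mem_Icc, mem_Ioc]
    omega
  have h4 : Disjoint ((Icc 1 u).filter Nat.Prime) ((Ioc u v).filter Nat.Prime) := by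
    rw [Finset.disjoint_left]
    intro p hp hp'
    rw [mem_filter, mem_Icc] at hp
    rw [mem_filter, mem_Ioc] at hp'
    omega
  rw [h3, sum_union h4] at h2
  rw [abs_le] at h1 h2 ⊢
  constructor <;> linarith [h1.1, h1.2, h2.1, h2.2]

theorem sum_gcd_PR (n : ℕ) (hn : 1 ≤ n) (K : ℕ) : ∃ C : ℝ, 0 ≤ C ∧ ∀ w : ℕ, 3 ≤ w →
    n.divisors.card * Real.log (Real.log w) - C ≤ ∑ p ∈ PR K w, (((p - 1).gcd n : ℕ) : ℝ) / p := by
  obtain ⟨C, hC, h⟩ := mertens_gcd n hn
  refine ⟨C + ∑ p ∈ (Icc 1 K).filter Nat.Prime, (((p - 1).gcd n : ℕ) : ℝ) / p, by positivity, fun w hw => ?_⟩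
  have h1 := h w hw
  have h2 : (Icc 1 w).filter Nat.Prime ⊆ PR K w ∪ (Icc 1 K).filter Nat.Prime := by
    intro p hp
    rw [mem_filter, mem_Icc] at hp
    rw [mem_union, mem_filter, mem_Icc]
    unfold PR
    rw [mem_filter, mem_Ioc]
    by_cases hpK : K < p
    · left; exact ⟨⟨hpK, hp.1.2⟩, hp.2⟩
    · right; exact ⟨⟨hp.1.1, by omega⟩, hp.2⟩
  have h3 : ∑ p ∈ (Icc 1 w).filter Nat.Prime, (((p - 1).gcd n : ℕ) : ℝ) / p ≤
      ∑ p ∈ PR K w, (((p - 1).gcd n : ℕ) : ℝ) / p + ∑ p ∈ (Icc 1 K).filter Nat.Prime, (((p - 1).gcd n : ℕ) : ℝ) / p := by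
    refine (sum_le_sum_of_subset_of_nonneg h2 fun p _ _ => by positivity).trans ?_
    rw [← sum_union_inter]
    have : 0 ≤ ∑ p ∈ PR K w ∩ (Icc 1 K).filter Nat.Prime, (((p - 1).gcd n : ℕ) : ℝ) / p := by positivity
    linarith
  rw [abs_le] at h1
  linarith [h1.1]

/-- the difference of the iterated logarithms of Rankin's parameters -/
theorem Delta_bounds (B : ℕ) (hB : 1 ≤ B) : ∃ C : ℝ, 0 ≤ C ∧ ∀ t lu lv : ℝ, 1 ≤ t → 1 ≤ Real.log t →
    B * t / 2 ≤ lu → lu ≤ B * t →
    Real.exp t * Real.log t / (2 * (B + 2) * t) / 2 ≤ lv → lv ≤ Real.exp t * Real.log t / (2 * (B + 2) * t) →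
    |Real.log lv - Real.log lu - (t + Real.log (Real.log t) - 2 * Real.log t)| ≤ C := by
  have hBr : (1 : ℝ) ≤ B := by exact_mod_cast hB
  refine ⟨Real.log 2 + Real.log (4 * (B + 2)) + Real.log B, ?_, fun t lu lv ht hlt h1 h2 h3 h4 => ?_⟩
  · have e1 := Real.log_nonneg (by norm_num : (1 : ℝ) ≤ 2)
    have e2 := Real.log_nonneg (by linarith : (1 : ℝ) ≤ 4 * (B + 2))
    have e3 := Real.log_nonneg hBr
    linarith
  · have ht0 : 0 < t := by linarith
    have hlt0 : 0 < Real.log t := by linarith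
    have e1 := Real.log_nonneg (by norm_num : (1 : ℝ) ≤ 2)
    have e2 := Real.log_nonneg (by linarith : (1 : ℝ) ≤ 4 * (B + 2))
    have e3 := Real.log_nonneg hBr
    have e4 := Real.log_nonneg (by linarith : (1 : ℝ) ≤ 2 * (B + 2))
    have hV : 0 < Real.exp t * Real.log t / (2 * (B + 2) * t) := by positivity
    have hlogV : Real.log (Real.exp t * Real.log t / (2 * (B + 2) * t)) =
        t + Real.log (Real.log t) - (Real.log (2 * (B + 2)) + Real.log t) := by
      rw [Real.log_div (by positivity) (by positivity), Real.log_mul (Real.exp_pos _).ne' hlt0.ne', Real.log_exp,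
        Real.log_mul (by positivity) ht0.ne']
    have k1 : Real.log lv ≤ t + Real.log (Real.log t) - (Real.log (2 * (B + 2)) + Real.log t) := by
      rw [← hlogV]; exact Real.log_le_log (by linarith) h4
    have k2 : t + Real.log (Real.log t) - (Real.log (2 * (B + 2)) + Real.log t) - Real.log 2 ≤ Real.log lv := by
      rw [← hlogV, ← Real.log_div hV.ne' (by norm_num)]
      exact Real.log_le_log (by positivity) h3
    have hlu0 : 0 < B * t / 2 := by positivity
    have k3 : Real.log lu ≤ Real.log B + Real.log t := by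
      rw [← Real.log_mul (by positivity) ht0.ne']
      exact Real.log_le_log (by linarith) h2
    have k4 : Real.log B + Real.log t - Real.log 2 ≤ Real.log lu := by
      rw [← Real.log_mul (by positivity) ht0.ne', ← Real.log_div (by positivity) (by norm_num)]
      exact Real.log_le_log hlu0 h1
    have k5 : Real.log (4 * (B + 2)) = Real.log 2 + Real.log (2 * (B + 2)) := by
      rw [← Real.log_mul (by norm_num) (by positivity)]
      congr 1; ring
    rw [abs_le]
    constructor <;> linarith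

/-- Greedy choice for the primes of `S`: the proportion of the classes which remove `t` is `g p / p`. -/
theorem greedy_g (S : Finset ℕ) (v₀ : ℝ) (hv₀ : 0 < v₀) (hS : ∀ p ∈ S, p.Prime ∧ v₀ < (p : ℝ))
    (g : ℕ → ℕ) (n : ℕ) (hg : ∀ p ∈ S, g p ≤ n)
    (R : Finset ℤ) (K : ℕ → ℕ → ℤ → Prop) (N : ℤ → ℤ)
    (hK : ∀ p ∈ S, ∀ t ∈ R, ¬ (p : ℤ) ∣ N t →
      (((range p).filter (fun s => ¬ K p s t)).card : ℝ) ≤ p - g p)
    (hN : ∀ t ∈ R, N t ≠ 0 → 2 * n * Real.log (N t).natAbs ≤ v₀) :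
    ∃ s : ℕ → ℕ, ((R.filter (fun t => ∀ p ∈ S, ¬ K p (s p) t)).card : ℝ) ≤
      R.card * (3 * Real.exp (-∑ p ∈ S, (g p : ℝ) / p)) + (R.filter (fun t => N t = 0)).card := by
  set w : ℕ → ℤ → ℝ := fun p t => if (p : ℤ) ∣ N t then 1 else Real.exp (-((g p : ℝ) / p)) with hw
  have hw0 : ∀ p ∈ S, ∀ t, 0 ≤ w p t := by
    intro p hp t
    simp only [hw]
    split_ifs
    · norm_num
    · exact (Real.exp_pos _).le
  obtain ⟨s, _, hsc⟩ := greedy_abs S K (fun p => p) w (fun p hp => (hS p hp).1.pos) hw0 R (by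
      intro p hp t ht
      by_cases hNt : (p : ℤ) ∣ N t
      · simp only [hw, if_pos hNt, one_mul]
        have := card_filter_le (range p) (fun c : ℕ => ¬ K p c t)
        rw [card_range] at this
        exact_mod_cast this
      · simp only [hw, if_neg hNt]
        have h1 := hK p hp t ht hNt
        have hp0 : (0 : ℝ) < p := by exact_mod_cast (hS p hp).1.pos
        have h2 := Real.add_one_le_exp (-((g p : ℝ) / p))
        have h3 : (p : ℝ) - g p = (-((g p : ℝ) / p) + 1) * p := by field_simp; ring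
        have h4 : (p : ℝ) - g p ≤ Real.exp (-((g p : ℝ) / p)) * p := by
          rw [h3]; exact mul_le_mul_of_nonneg_right h2 hp0.le
        have h5 := h1.trans h4
        convert h5)
  refine ⟨s, ?_⟩
  have hsc' : ((R.filter (fun t => ∀ p ∈ S, ¬ K p (s p) t)).card : ℝ) ≤ ∑ t ∈ R, ∏ p ∈ S, w p t := by convert hsc
  refine hsc'.trans ?_
  have hterm : ∀ t ∈ R, N t ≠ 0 → ∏ p ∈ S, w p t ≤ 3 * Real.exp (-∑ p ∈ S, (g p : ℝ) / p) := by
    intro t ht hNt
    set k : ℕ := (N t).natAbs with hk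
    have hk1 : 1 ≤ k := Int.natAbs_pos.2 hNt
    have e1 : ∏ p ∈ S, w p t = Real.exp (-∑ p ∈ S.filter (fun p => ¬ p ∣ k), (g p : ℝ) / p) := by
      rw [← sum_neg_distrib, Real.exp_sum, prod_filter]
      apply Finset.prod_congr rfl
      intro p hp
      have hiff : (p : ℤ) ∣ N t ↔ p ∣ k := Int.natCast_dvd
      simp only [hw]
      by_cases h : p ∣ k
      · rw [if_pos (hiff.2 h), if_neg (by simpa using h)]
      · rw [if_neg (fun h' => h (hiff.1 h')), if_pos h]
    have e2 : ∑ p ∈ S, (g p : ℝ) / p ≤ ∑ p ∈ S.filter (fun p => ¬ p ∣ k), (g p : ℝ) / p + 1 := by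
      rw [← sum_filter_add_sum_filter_not S (fun p => ¬ p ∣ k)]
      have h1 : ∑ p ∈ S.filter (fun p => ¬ ¬ p ∣ k), (g p : ℝ) / p ≤ 1 := by
        have h2 : ∀ p ∈ S.filter (fun p => ¬ ¬ p ∣ k), (g p : ℝ) / p ≤ n / v₀ := by
          intro p hp
          have hpS := (mem_filter.1 hp).1
          have h3 : (g p : ℝ) ≤ n := by exact_mod_cast hg p hpS
          exact div_le_div₀ (Nat.cast_nonneg _) h3 hv₀ (hS p hpS).2.le
        have h3 : ((S.filter (fun p => ¬ ¬ p ∣ k)).card : ℝ) ≤ 2 * Real.log k := by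
          have h12 : 2 ^ (S.filter (fun p => ¬ ¬ p ∣ k)).card ≤ k := by
            have h13 : (S.filter (fun p => ¬ ¬ p ∣ k)) ⊆ k.primeFactors := by
              intro p hp
              rw [mem_filter] at hp
              exact Nat.mem_primeFactors.2 ⟨(hS p hp.1).1, not_not.1 hp.2, by omega⟩
            calc 2 ^ (S.filter (fun p => ¬ ¬ p ∣ k)).card ≤ 2 ^ k.primeFactors.card :=
                  Nat.pow_le_pow_right (by norm_num) (card_le_card h13)
              _ ≤ ∏ p ∈ k.primeFactors, p := by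
                  rw [← prod_const]
                  exact Finset.prod_le_prod' fun p hp => (Nat.prime_of_mem_primeFactors hp).two_le
              _ ≤ k := Nat.le_of_dvd (by omega) (Nat.prod_primeFactors_dvd k)
          have h14 : ((S.filter (fun p => ¬ ¬ p ∣ k)).card : ℝ) * Real.log 2 ≤ Real.log k := by
            rw [← Real.log_pow]
            apply Real.log_le_log (by positivity)
            exact_mod_cast h12
          have h15 := Real.log_two_gt_d9
          have h16 : (0 : ℝ) ≤ ((S.filter (fun p => ¬ ¬ p ∣ k)).card : ℝ) := by positivity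
          nlinarith
        calc ∑ p ∈ S.filter (fun p => ¬ ¬ p ∣ k), (g p : ℝ) / p
            ≤ ∑ p ∈ S.filter (fun p => ¬ ¬ p ∣ k), (n / v₀ : ℝ) := sum_le_sum h2
          _ = (S.filter (fun p => ¬ ¬ p ∣ k)).card * (n / v₀) := by rw [sum_const, nsmul_eq_mul]
          _ ≤ (2 * Real.log k) * (n / v₀) := by gcongr
          _ = (2 * n * Real.log k) / v₀ := by ring
          _ ≤ 1 := by rw [div_le_one hv₀]; exact hN t ht hNt
      linarith
    rw [e1]
    calc Real.exp (-∑ p ∈ S.filter (fun p => ¬ p ∣ k), (g p : ℝ) / p)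
        ≤ Real.exp (1 + -∑ p ∈ S, (g p : ℝ) / p) := Real.exp_le_exp.2 (by linarith)
      _ = Real.exp 1 * Real.exp (-∑ p ∈ S, (g p : ℝ) / p) := Real.exp_add _ _
      _ ≤ 3 * Real.exp (-∑ p ∈ S, (g p : ℝ) / p) := by
          have := Real.exp_one_lt_d9
          have := Real.exp_pos (-∑ p ∈ S, (g p : ℝ) / p)
          nlinarith
  have hone : ∀ t, ∏ p ∈ S, w p t ≤ 1 := by
    intro t
    apply Finset.prod_le_one (fun p hp => hw0 p hp t)
    intro p hp
    simp only [hw]
    split_ifs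
    · exact le_rfl
    · rw [Real.exp_le_one_iff]
      have : (0 : ℝ) ≤ (g p : ℝ) / p := by positivity
      linarith
  rw [← sum_filter_add_sum_filter_not R (fun t => N t = 0)]
  have e1 : ∑ t ∈ R.filter (fun t => N t = 0), ∏ p ∈ S, w p t ≤ (R.filter (fun t => N t = 0)).card := by
    calc ∑ t ∈ R.filter (fun t => N t = 0), ∏ p ∈ S, w p t
        ≤ ∑ t ∈ R.filter (fun t => N t = 0), (1 : ℝ) := sum_le_sum fun t _ => hone t
      _ = (R.filter (fun t => N t = 0)).card := by rw [sum_const, nsmul_eq_mul, mul_one]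
  have e2 : ∑ t ∈ R.filter (fun t => ¬ N t = 0), ∏ p ∈ S, w p t ≤
      R.card * (3 * Real.exp (-∑ p ∈ S, (g p : ℝ) / p)) := by
    calc ∑ t ∈ R.filter (fun t => ¬ N t = 0), ∏ p ∈ S, w p t
        ≤ ∑ t ∈ R.filter (fun t => ¬ N t = 0), (3 * Real.exp (-∑ p ∈ S, (g p : ℝ) / p)) :=
          sum_le_sum fun t ht => hterm t (mem_filter.1 ht).1 (mem_filter.1 ht).2
      _ = (R.filter (fun t => ¬ N t = 0)).card * (3 * Real.exp (-∑ p ∈ S, (g p : ℝ) / p)) := by
          rw [sum_const, nsmul_eq_mul]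
      _ ≤ _ := by
          apply mul_le_mul_of_nonneg_right _ (by positivity)
          exact_mod_cast card_le_card (filter_subset _ _)
  linarith

end Pool.Agent.N893.MC
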