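import Mathlib
import Pool.Agent.N893.MC.Sums

set_option autoImplicit false
set_option maxHeartbeats 4000000

/-! # The survivors of the sieve for `t ^ n + a` -/

namespace Pool.Agent.N893.MC

open Finset Filter Pool.Agent.H646 Pool.Agent.H646.Sv1M Pool.Agent.H318R2.Cr Pool.Agent.H398R2.RK
  Pool.Agent.N893.RK

open scoped Classical

theorem kap_divisors (n : ℕ) : (kap n).divisors.card = kap n := by
  unfold kap
  split_ifs
  · decide
  · decide

theorem kap_le_div (n : ℕ) (hn : 1 ≤ n) : kap n ≤ n.divisors.card := by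
  rw [← kap_divisors n]
  exact card_le_card (Nat.divisors_subset_of_dvd (by omega) (kap_dvd n))

theorem card_Ecl (n : ℕ) (hn : 1 ≤ n) (S : Finset ℕ) (ε : ℤ) (hε : ε = 1 ∨ ε = -1) (p : ℕ) (hp : p.Prime) :
    (Ecl n S ε p).card = if p ∈ S then (p - 1).gcd (kap n) else (p - 1).gcd n := by
  unfold Ecl
  split_ifs
  · exact card_Zr p _ hp (kap_pos n) ε (not_dvd_eps p hp ε hε)
  · exact card_Zr p _ hp hn ε (not_dvd_eps p hp ε hε)

theorem gcd_kap_le (n : ℕ) (hn : 1 ≤ n) (m : ℕ) : m.gcd (kap n) ≤ m.gcd n :=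
  Nat.le_of_dvd (Nat.gcd_pos_of_pos_right _ hn) (Nat.gcd_dvd_gcd_of_dvd_right _ (kap_dvd n))

theorem sum_Ecl (n : ℕ) (hn : 1 ≤ n) (K w : ℕ) (S : Finset ℕ) (ε : ℤ) (hε : ε = 1 ∨ ε = -1) :
    ∑ p ∈ PR K w, (((p - 1).gcd n : ℕ) : ℝ) / p - ∑ p ∈ S, (((p - 1).gcd n : ℕ) : ℝ) / p +
      ∑ p ∈ S, (((p - 1).gcd (kap n) : ℕ) : ℝ) / p ≤ ∑ p ∈ PR K w, ((Ecl n S ε p).card : ℝ) / p := by
  have h1 : ∑ p ∈ PR K w, ((Ecl n S ε p).card : ℝ) / p = ∑ p ∈ PR K w, (((p - 1).gcd n : ℕ) : ℝ) / p -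
      ∑ p ∈ (PR K w).filter (fun p => p ∈ S), ((((p - 1).gcd n : ℕ) : ℝ) - (((p - 1).gcd (kap n) : ℕ) : ℝ)) / p := by
    rw [sum_filter, ← sum_sub_distrib]
    apply sum_congr rfl
    intro p hp
    rw [card_Ecl n hn S ε hε p (PR_prime' hp).1]
    split_ifs
    · ring
    · ring
  have h0 : ∀ p : ℕ, 0 ≤ ((((p - 1).gcd n : ℕ) : ℝ) - (((p - 1).gcd (kap n) : ℕ) : ℝ)) / p := by
    intro p
    have : (((p - 1).gcd (kap n) : ℕ) : ℝ) ≤ (((p - 1).gcd n : ℕ) : ℝ) := by exact_mod_cast gcd_kap_le n hn _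
    apply div_nonneg (by linarith) (Nat.cast_nonneg _)
  have h2 : ∑ p ∈ (PR K w).filter (fun p => p ∈ S), ((((p - 1).gcd n : ℕ) : ℝ) - (((p - 1).gcd (kap n) : ℕ) : ℝ)) / p ≤
      ∑ p ∈ S, ((((p - 1).gcd n : ℕ) : ℝ) - (((p - 1).gcd (kap n) : ℕ) : ℝ)) / p := by
    apply sum_le_sum_of_subset_of_nonneg
    · intro p hp
      exact (mem_filter.1 hp).2
    · intro p _ _
      exact h0 p
  have h3 : ∑ p ∈ S, ((((p - 1).gcd n : ℕ) : ℝ) - (((p - 1).gcd (kap n) : ℕ) : ℝ)) / p =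
      ∑ p ∈ S, (((p - 1).gcd n : ℕ) : ℝ) / p - ∑ p ∈ S, (((p - 1).gcd (kap n) : ℕ) : ℝ) / p := by
    rw [← sum_sub_distrib]
    apply sum_congr rfl
    intro p _
    ring
  rw [h1]
  linarith

/-- all the `t` which are not removed by the special classes -/
theorem card_okn (n : ℕ) (hn : 1 ≤ n) (W : ℕ) (hW : 1 ≤ W) (y : ℝ) (S : Finset ℕ) (L : ℕ) (hL1 : 1 ≤ L)
    (K w : ℕ) (hKW : W ≤ K) (hKn : n ≤ K) (hwy : (w : ℝ) ≤ y)
    (hsv : ∀ E : ℕ → Finset ℕ, Sys K w E →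
        (((Icc 1 L).filter (fun l => ∀ p ∈ PR K w, l % p ∉ E p)).card : ℝ) ≤
          2 * L * ∏ p ∈ PR K w, (1 - ((E p).card : ℝ) / p) + Real.sqrt L)
    (Sm : ℕ → Prop) (hdich : ∀ m : ℕ, 1 ≤ m → m ≤ 2 * L →
      (∀ p : ℕ, p.Prime → p ∣ m → (y < p ∨ p ∈ S ∨ p ∣ W)) → Sm m ∨
        (∀ p : ℕ, p.Prime → p ∣ m → (y < p ∨ p ∣ W)))
    (A : ℝ) (hA : ∀ ε : ℤ, ε = 1 ∨ ε = -1 → A ≤ ∑ p ∈ PR K w, ((Ecl n S ε p).card : ℝ) / p) :
    (((Finset.Icc (-(L : ℤ)) L).filter (fun t => Okn n W y S t)).card : ℝ) ≤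
      4 * ((Finset.Icc 1 (2 * L)).filter Sm).card + 4 * L * Real.exp (-A) + 2 * Real.sqrt L + 3 := by
  have hside : ∀ ε : ℤ, ε = 1 ∨ ε = -1 →
      (((Finset.Icc (-(L : ℤ)) L).filter (fun t => Okn n W y S t ∧ 1 < ε * t)).card : ℝ) ≤
      2 * ((Finset.Icc 1 (2 * L)).filter Sm).card + (2 * L * Real.exp (-A) + Real.sqrt L) := by
    intro ε hε
    have h1 := card_sideM n W hW y S ε hε L (2 * L) (by omega) K w hKW hwy Sm hdich
    have h2 := hsv _ (Ecl_sys n hn S ε hε K w hKn)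
    have h3 : ∏ p ∈ PR K w, (1 - ((Ecl n S ε p).card : ℝ) / p) ≤ Real.exp (-A) := by
      calc ∏ p ∈ PR K w, (1 - ((Ecl n S ε p).card : ℝ) / p)
          ≤ ∏ p ∈ PR K w, Real.exp (-(((Ecl n S ε p).card : ℝ) / p)) := by
            apply Finset.prod_le_prod
            · intro p hp
              have h5 := (PR_prime' hp).1.pos
              have h6 : (0 : ℝ) < p := by exact_mod_cast h5
              rw [sub_nonneg, div_le_one h6]
              have h7 := card_le_card ((Ecl_sys n hn S ε hε K w hKn).sub p hp)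
              rw [card_range] at h7
              exact_mod_cast h7
            · intro p _
              have := Real.add_one_le_exp (-(((Ecl n S ε p).card : ℝ) / p))
              linarith
        _ = Real.exp (-∑ p ∈ PR K w, ((Ecl n S ε p).card : ℝ) / p) := by
            rw [← Real.exp_sum, sum_neg_distrib]
        _ ≤ Real.exp (-A) := Real.exp_le_exp.2 (by linarith [hA ε hε])
    have h4 : 2 * (L : ℝ) * ∏ p ∈ PR K w, (1 - ((Ecl n S ε p).card : ℝ) / p) ≤ 2 * L * Real.exp (-A) :=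
      mul_le_mul_of_nonneg_left h3 (by positivity)
    have h5 : (((Finset.Icc (-(L : ℤ)) L).filter (fun t => Okn n W y S t ∧ 1 < ε * t)).card : ℝ) ≤
      2 * ((Finset.Icc 1 (2 * L)).filter Sm).card +
        ((Icc 1 L).filter (fun l => ∀ p ∈ PR K w, l % p ∉ Ecl n S ε p)).card := by exact_mod_cast h1
    linarith
  have h3 := hside 1 (Or.inl rfl)
  have h4 := hside (-1) (Or.inr rfl)
  have h7 : ((Finset.Icc (-(L : ℤ)) L).filter (fun t => |t| ≤ (1 : ℤ))).card ≤ 3 := by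
    have : (Finset.Icc (-(L : ℤ)) L).filter (fun t => |t| ≤ (1 : ℤ)) ⊆ Finset.Icc (-1 : ℤ) 1 := by
      intro t ht
      rw [mem_filter] at ht
      exact mem_Icc.2 (abs_le.1 ht.2)
    have h8 := card_le_card this
    rw [Int.card_Icc] at h8
    omega
  have hsub : (Finset.Icc (-(L : ℤ)) L).filter (fun t => Okn n W y S t) ⊆
      (Finset.Icc (-(L : ℤ)) L).filter (fun t => Okn n W y S t ∧ 1 < 1 * t) ∪
      (Finset.Icc (-(L : ℤ)) L).filter (fun t => Okn n W y S t ∧ 1 < -1 * t) ∪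
      (Finset.Icc (-(L : ℤ)) L).filter (fun t => |t| ≤ (1 : ℤ)) := by
    intro t ht
    rw [mem_filter] at ht
    rw [mem_union, mem_union, mem_filter, mem_filter, mem_filter]
    by_cases h : |t| ≤ (1 : ℤ)
    · exact Or.inr ⟨ht.1, h⟩
    · left
      rw [not_le, lt_abs] at h
      rcases h with h | h
      · exact Or.inl ⟨ht.1, ht.2, by linarith⟩
      · exact Or.inr ⟨ht.1, ht.2, by linarith⟩
  have h8 := (card_le_card hsub).trans ((card_union_le _ _).trans (Nat.add_le_add_right (card_union_le _ _) _))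
  have h9 : (((Finset.Icc (-(L : ℤ)) L).filter (fun t => Okn n W y S t)).card : ℝ) ≤
      (((Finset.Icc (-(L : ℤ)) L).filter (fun t => Okn n W y S t ∧ 1 < 1 * t)).card : ℝ) +
      (((Finset.Icc (-(L : ℤ)) L).filter (fun t => Okn n W y S t ∧ 1 < -1 * t)).card : ℝ) +
      (((Finset.Icc (-(L : ℤ)) L).filter (fun t => |t| ≤ (1 : ℤ))).card : ℝ) := by exact_mod_cast h8
  have h7' : (((Finset.Icc (-(L : ℤ)) L).filter (fun t => |t| ≤ (1 : ℤ))).card : ℝ) ≤ 3 := by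
    exact_mod_cast h7
  linarith

end Pool.Agent.N893.MC
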