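import Mathlib
import Pool.Agent.N893.MC.Surv

set_option autoImplicit false
set_option maxHeartbeats 4000000

/-! # The survivors of the sieve for `t ^ n + a`, II -/

namespace Pool.Agent.N893.MC

open Finset Filter Pool.Agent.H646 Pool.Agent.H646.Sv1M Pool.Agent.H318R2.Cr Pool.Agent.H398R2.RK
  Pool.Agent.N893.RK

open scoped Classical

theorem dvd_sub_iff_pow (p : ℕ) (hp : p.Prime) (n : ℕ) (hn : 1 ≤ n) (t : ℤ) (ht : ¬ (p : ℤ) ∣ t) :
    (((range p).filter (fun s : ℕ => ¬ (p : ℤ) ∣ t ^ n - (s : ℤ) ^ n)).card : ℝ) = p - (((p - 1).gcd n : ℕ) : ℝ) := by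
  have h1 := card_Zr p n hp hn t ht
  have h2 : ((range p).filter (fun s : ℕ => (p : ℤ) ∣ t ^ n - (s : ℤ) ^ n)).card +
      ((range p).filter (fun s : ℕ => ¬ (p : ℤ) ∣ t ^ n - (s : ℤ) ^ n)).card = (range p).card :=
    card_filter_add_card_filter_not _
  unfold Zr at h1
  have h3 : ((range p).filter (fun s : ℕ => (p : ℤ) ∣ t ^ n - (s : ℤ) ^ n)).card = (p - 1).gcd n := by
    rw [← h1]
  rw [h3, card_range] at h2
  have h4 : (((p - 1).gcd n : ℕ) : ℝ) +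
      (((range p).filter (fun s : ℕ => ¬ (p : ℤ) ∣ t ^ n - (s : ℤ) ^ n)).card : ℝ) = p := by exact_mod_cast h2
  linarith

/-- The survivors of the sieve by the primes up to `y`. -/
theorem survivors_mc (n : ℕ) (hn : 1 ≤ n) (W : ℕ) (hW : 1 ≤ W) :
    ∃ C : ℝ, 0 < C ∧ ∃ y₀ : ℝ, ∀ y : ℝ, y₀ ≤ y → ∀ L : ℕ, y ≤ L →
      (L : ℝ) ≤ y * (Real.log y) ^ (n.divisors.card + kap n) →
    ∃ (S : Finset ℕ) (s : ℕ → ℕ), (∀ p ∈ S, p.Prime ∧ ¬ p ∣ W ∧ (p : ℝ) ≤ y) ∧
      (((Finset.Icc (-(L : ℤ)) L).filter (fun t => Okn n W y S t ∧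
        ∀ p ∈ S, ¬ (p : ℤ) ∣ t ^ n - (s p : ℤ) ^ n)).card : ℝ) ≤
      C * L * (Real.log (Real.log y)) ^ (2 * kap n) /
        ((Real.log y) ^ (n.divisors.card + kap n) * (Real.log (Real.log (Real.log y))) ^ (kap n)) := by
  obtain ⟨D, hD⟩ : ∃ D : ℕ, D = n.divisors.card := ⟨_, rfl⟩
  obtain ⟨κ, hκ⟩ : ∃ κ : ℕ, κ = kap n := ⟨_, rfl⟩
  have hκ1 : 1 ≤ κ := by rw [hκ]; exact kap_pos n
  have hκD : κ ≤ D := by rw [hκ, hD]; exact kap_le_div n hn
  set B : ℕ := D + κ + 2 with hB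
  obtain ⟨K, hKdef⟩ : ∃ K : ℕ, K = max n W := ⟨_, rfl⟩
  have hKn : n ≤ K := by rw [hKdef]; exact le_max_left _ _
  have hKW : W ≤ K := by rw [hKdef]; exact le_max_right _ _
  obtain ⟨y₁, hy₁2, hR3⟩ := rankin3 B (by omega) W hW
  obtain ⟨Q, hQ, Y₀, hY₀3, hcb⟩ := class_bound K (by omega)
  obtain ⟨C₁, hC₁, hs1⟩ := sum_gcd_Ioc n hn
  obtain ⟨C₂, hC₂, hs2⟩ := sum_gcd_Ioc (kap n) (kap_pos n)
  obtain ⟨C₃, hC₃, hs3⟩ := sum_gcd_PR n hn K
  obtain ⟨C₄, hC₄, hDel⟩ := Delta_bounds B (by omega)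
  rw [kap_divisors, ← hκ] at hs2
  rw [← hD] at hs1 hs3
  simp only [← hD, ← hκ]
  obtain ⟨t₀, hev⟩ := ev_exp B 1 one_pos
  have hQ1 : (1 : ℝ) ≤ Q := by exact_mod_cast hQ
  obtain ⟨C₅, hC₅⟩ : ∃ C₅ : ℝ, C₅ = D * Real.log (24 * Q) + C₃ + C₁ + C₂ + (D + κ) * C₄ := ⟨_, rfl⟩
  obtain ⟨C₆, hC₆⟩ : ∃ C₆ : ℝ, C₆ = C₁ + D * C₄ := ⟨_, rfl⟩
  refine ⟨(13 + 4 * Real.exp C₅) * (3 * Real.exp C₆) + 1, by positivity,
    max y₁ (max (Real.exp (Real.exp t₀)) (max (Real.exp (Y₀ + W + 4)) (Real.exp (2 * n + 4)))),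
    fun y hy L hyL hLy => ?_⟩
  obtain ⟨u, v, hu3, huv, hvy, hlu1, hlu2, hlv1, hlv2, hS, hsm, hdich⟩ := hR3 y ((le_max_left _ _).trans hy)
  obtain ⟨S, hSdef⟩ : ∃ S : Finset ℕ, S = (Ioc u v).filter Nat.Prime := ⟨_, rfl⟩
  have hy' := (le_max_left _ _).trans ((le_max_right _ _).trans hy)
  have hy'' := (le_max_left _ _).trans ((le_max_right _ _).trans ((le_max_right _ _).trans hy))
  have hy''' := (le_max_right _ _).trans ((le_max_right _ _).trans ((le_max_right _ _).trans hy))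
  have hy0 : 0 < y := (Real.exp_pos _).trans_le hy'
  have hL1' : Real.exp t₀ ≤ Real.log y := by
    rw [← Real.log_exp (Real.exp t₀)]; exact Real.log_le_log (Real.exp_pos _) hy'
  have hlx : (Y₀ : ℝ) + W + 4 ≤ Real.log y := by
    rw [← Real.log_exp ((Y₀ : ℝ) + W + 4)]; exact Real.log_le_log (Real.exp_pos _) hy''
  have hlm : 2 * (n : ℝ) + 4 ≤ Real.log y := by
    rw [← Real.log_exp (2 * (n : ℝ) + 4)]; exact Real.log_le_log (Real.exp_pos _) hy'''
  have hly : 0 < Real.log y := (Real.exp_pos _).trans_le hL1'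
  set t := Real.log (Real.log y) with ht
  have htt : t₀ ≤ t := by
    rw [← Real.log_exp t₀]; exact Real.log_le_log (Real.exp_pos _) hL1'
  obtain ⟨h1, h2, h5, h3, h4, _⟩ := hev t htt
  have hLe : Real.log y = Real.exp t := by rw [ht, Real.exp_log hly]
  have hye : y = Real.exp (Real.exp t) := by rw [← hLe, Real.exp_log hy0]
  have hly100 : 100 ≤ Real.log y := by rw [hLe]; exact h4
  have hly1 : 1 ≤ Real.log y := by linarith
  have hylog : Real.log y ≤ y := by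
    have := Real.log_le_sub_one_of_pos hy0
    linarith
  have hy100 : 100 ≤ y := by linarith
  have hL0 : (0 : ℝ) < L := by linarith
  have ht0 : 0 < t := by linarith
  have hlt0 : 0 < Real.log t := by linarith
  have hW0 : (0 : ℝ) ≤ W := Nat.cast_nonneg _
  have hY00 : (0 : ℝ) ≤ Y₀ := Nat.cast_nonneg _
  have hκr : (1 : ℝ) ≤ κ := by exact_mod_cast hκ1
  have hκDr : (κ : ℝ) ≤ D := by exact_mod_cast hκD
  have hBr : (B : ℝ) = D + κ + 2 := by rw [hB]; push_cast; ring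
  set v₀ : ℝ := Real.log y ^ B with hv₀
  -- powers of the logarithm
  have hpow_y : ∀ j : ℕ, j ≤ 2 * B → Real.log y ^ j ≤ y := by
    intro j hj
    rw [hye, Real.log_exp, ← Real.exp_nat_mul]
    apply Real.exp_le_exp.2
    refine le_trans ?_ h3
    have hjr : (j : ℝ) ≤ 2 * B := by exact_mod_cast hj
    have hB0 : (0 : ℝ) ≤ B := Nat.cast_nonneg _
    have e1 : (j : ℝ) * t ≤ (2 * B) * t ^ 2 := by
      have : t ≤ t ^ 2 := by nlinarith
      exact mul_le_mul hjr this ht0.le (by positivity)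
    have e2 : 2 * (B : ℝ) ≤ (B + 5 : ℝ) * 20 * (B + 5) := by nlinarith
    exact e1.trans (mul_le_mul_of_nonneg_right e2 (by positivity))
  have hv₀big : 100 * Real.log y ≤ v₀ := by
    calc 100 * Real.log y ≤ Real.log y * Real.log y := by gcongr
      _ = Real.log y ^ 2 := by ring
      _ ≤ v₀ := pow_le_pow_right₀ hly1 (by omega)
  have hSW : ∀ p ∈ S, ¬ p ∣ W := by
    intro p hp hd
    have h6 := Nat.le_of_dvd hW hd
    have h7 : (p : ℝ) ≤ W := by exact_mod_cast h6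
    rw [hSdef] at hp
    have h8 := (hS p hp).2.1
    linarith
  -- sizes
  have hLY₀ : Y₀ ≤ L := by
    have : (Y₀ : ℝ) ≤ L := by linarith
    exact_mod_cast this
  have hL1 : 1 ≤ L := by omega
  have hLv : (L : ℝ) * 4 ≤ y * v₀ := by
    calc (L : ℝ) * 4 ≤ (y * Real.log y ^ (D + κ)) * (Real.log y ^ 2) := by
          have h6 : (4 : ℝ) ≤ Real.log y ^ 2 := by nlinarith
          gcongr
      _ = y * v₀ := by rw [hv₀, hB, pow_add]; ring
  have hLyy : (L : ℝ) ≤ y * y := by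
    exact hLy.trans (mul_le_mul_of_nonneg_left (hpow_y _ (by omega)) hy0.le)
  have hLysq : Real.sqrt L ≤ y := by
    rw [Real.sqrt_le_left hy0.le]
    exact hLyy.trans (le_of_eq (by ring))
  have h2L : ((2 * L : ℕ) : ℝ) = 2 * L := by push_cast; ring
  obtain ⟨w, hw3, hwL, hwlog, hcbE⟩ := hcb L hLY₀
  have hwy : (w : ℝ) ≤ y := hwL.trans hLysq
  -- the sums
  have hw0 : (0 : ℝ) < w := by exact_mod_cast (by omega : 0 < w)
  have hlLy : Real.log y ≤ Real.log L := Real.log_le_log hy0 hyL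
  have hllw : t - Real.log (24 * Q) ≤ Real.log (Real.log w) := by
    have e1 : Real.log y / (24 * Q) ≤ Real.log w := by
      refine le_trans ?_ hwlog
      gcongr
    rw [ht, ← Real.log_div hly.ne' (by positivity)]
    exact Real.log_le_log (by positivity) e1
  set E0 : ℝ := t + Real.log (Real.log t) - 2 * Real.log t with hE0
  have hDelta := hDel t (Real.log u) (Real.log v) h1 h2 hlu1 hlu2 (by rw [← hLe]; exact hlv1)
    (by rw [← hLe]; exact hlv2)
  have hS1 := hs1 u v hu3 huv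
  have hS2 := hs2 u v hu3 huv
  have hS3 := hs3 w hw3
  rw [← hSdef] at hS1 hS2
  rw [abs_le] at hDelta hS1 hS2
  have hD0 : (0 : ℝ) ≤ D := Nat.cast_nonneg _
  have hSg : D * E0 - C₆ ≤ ∑ p ∈ S, (((p - 1).gcd n : ℕ) : ℝ) / p := by
    have e1 : (D : ℝ) * (E0 - C₄) ≤ D * (Real.log (Real.log v) - Real.log (Real.log u)) :=
      mul_le_mul_of_nonneg_left (by linarith [hDelta.1]) hD0
    rw [hC₆]
    linarith [hS1.1]
  have hA : ∀ ε : ℤ, ε = 1 ∨ ε = -1 → κ * t + (D - κ) * (t - E0) - C₅ ≤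
      ∑ p ∈ PR K w, ((Ecl n S ε p).card : ℝ) / p := by
    intro ε hε
    have hE := sum_Ecl n hn K w S ε hε
    rw [← hκ] at hE
    refine le_trans ?_ hE
    have e1 : (D : ℝ) * (t - Real.log (24 * Q)) ≤ D * Real.log (Real.log w) :=
      mul_le_mul_of_nonneg_left hllw hD0
    have e2 : (D : ℝ) * (Real.log (Real.log v) - Real.log (Real.log u)) ≤ D * (E0 + C₄) :=
      mul_le_mul_of_nonneg_left (by linarith [hDelta.2]) hD0
    have e3 : (κ : ℝ) * (E0 - C₄) ≤ κ * (Real.log (Real.log v) - Real.log (Real.log u)) :=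
      mul_le_mul_of_nonneg_left (by linarith [hDelta.1]) (by linarith)
    rw [hC₅]
    nlinarith [hS1.2, hS2.1]
  have hcok := card_okn n hn W hW y S L hL1 K w hKW hKn hwy hcbE (Smo (2 * ((B : ℕ) + 2)) y)
    (fun m hm1 hmM hfac => hdich m hm1 (by
      have h6 : (m : ℝ) ≤ 2 * L := by rw [← h2L]; exact_mod_cast hmM
      have h7 : (m : ℝ) ≤ y * v₀ := by linarith
      exact h7) (by rw [← hSdef]; exact hfac)) _ hA
  have hsm2 := hsm (2 * L) (by rw [h2L]; linarith)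
  obtain ⟨R', hR'⟩ : ∃ R' : Finset ℤ, R' = (Finset.Icc (-(L : ℤ)) L).filter (fun t => Okn n W y S t) := ⟨_, rfl⟩
  obtain ⟨A1, hA1⟩ : ∃ A1 : Finset ℕ, A1 = (Finset.Icc 1 (2 * L)).filter (Smo (2 * ((B : ℕ) + 2)) y) := ⟨_, rfl⟩
  rw [← hR', ← hA1] at hcok
  have hA1c : (A1.card : ℝ) ≤ 2 * L / Real.log y ^ B := by
    rw [hA1, ← h2L]; convert hsm2
  -- everything in terms of `exp`
  obtain ⟨Z, hZ⟩ : ∃ Z : ℝ, Z = Real.exp (-(κ * t + (D - κ) * (t - E0))) := ⟨_, rfl⟩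
  have hZ0 : 0 < Z := by rw [hZ]; exact Real.exp_pos _
  have hlogt_le : 2 * Real.log t ≤ t := by
    have e1 : t ^ 2 ≤ Real.exp t := by
      refine le_trans ?_ h3
      have : (1 : ℝ) ≤ (B + 5 : ℝ) * 20 * (B + 5) := by
        have : (0 : ℝ) ≤ B := Nat.cast_nonneg _
        nlinarith
      nlinarith [sq_nonneg t]
    have e2 := Real.log_le_log (by positivity) e1
    rw [Real.log_pow, Real.log_exp] at e2
    exact_mod_cast e2
  have hllt0 : 0 ≤ Real.log (Real.log t) := Real.log_nonneg h2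
  have hE0t : t - E0 ≤ t := by rw [hE0]; linarith
  have hinvB : 1 / Real.log y ^ B ≤ Z := by
    rw [hZ, hLe, ← Real.exp_nat_mul, one_div, ← Real.exp_neg]
    apply Real.exp_le_exp.2
    have e1 : ((D : ℝ) - κ) * (t - E0) ≤ (D - κ) * t := mul_le_mul_of_nonneg_left hE0t (by linarith)
    rw [hBr]
    nlinarith
  have hRcard : (R'.card : ℝ) ≤ (13 + 4 * Real.exp C₅) * (L * Z) := by
    have e1 : Real.exp (-(κ * t + (D - κ) * (t - E0) - C₅)) = Real.exp C₅ * Z := by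
      rw [hZ, ← Real.exp_add]; congr 1; ring
    rw [e1] at hcok
    have e2 : (A1.card : ℝ) ≤ 2 * (L * Z) := by
      refine hA1c.trans ?_
      calc 2 * (L : ℝ) / Real.log y ^ B = 2 * L * (1 / Real.log y ^ B) := by ring
        _ ≤ 2 * L * Z := by gcongr
        _ = _ := by ring
    have hLyB : Real.log y ^ (2 * B) ≤ L := (hpow_y (2 * B) le_rfl).trans hyL
    have hZinv : 1 ≤ Real.log y ^ B * Z := by
      rw [div_le_iff₀ (by positivity)] at hinvB
      linarith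
    have e3 : Real.sqrt L ≤ L * Z := by
      have e4 : Real.log y ^ B ≤ Real.sqrt L := by
        apply Real.le_sqrt_of_sq_le
        rw [← pow_mul, mul_comm B 2]
        exact hLyB
      calc Real.sqrt L = Real.sqrt L * 1 := (mul_one _).symm
        _ ≤ Real.sqrt L * (Real.log y ^ B * Z) := by gcongr
        _ ≤ Real.sqrt L * (Real.sqrt L * Z) := by gcongr
        _ = (Real.sqrt L * Real.sqrt L) * Z := by ring
        _ = L * Z := by rw [Real.mul_self_sqrt hL0.le]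
    have e5 : (1 : ℝ) ≤ L * Z := by
      refine le_trans ?_ e3
      rw [Real.one_le_sqrt]
      linarith
    nlinarith
  have hNlog : ∀ t ∈ R', (fun t : ℤ => t) t ≠ 0 → 2 * (n : ℝ) * Real.log (((fun t : ℤ => t) t).natAbs : ℕ) ≤ v₀ := by
    intro r hr hNr
    simp only at hNr ⊢
    have hk1 : 1 ≤ r.natAbs := Int.natAbs_pos.2 hNr
    have hk0 : (0 : ℝ) < (r.natAbs : ℕ) := by exact_mod_cast hk1
    have h8 : ((r.natAbs : ℕ) : ℝ) ≤ y ^ 2 := by
      have h10 : ((r.natAbs : ℕ) : ℝ) = |(r : ℝ)| := by rw [Nat.cast_natAbs]; push_cast; rfl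
      rw [h10]
      rw [hR', mem_filter, mem_Icc] at hr
      have hr1 : (-(L : ℝ)) ≤ r := by exact_mod_cast hr.1.1
      have hr2 : (r : ℝ) ≤ L := by exact_mod_cast hr.1.2
      have h11 : |(r : ℝ)| ≤ L := abs_le.2 ⟨hr1, hr2⟩
      refine h11.trans (hLyy.trans (le_of_eq (by ring)))
    have h10 : Real.log (r.natAbs : ℕ) ≤ Real.log (y ^ 2) := Real.log_le_log hk0 h8
    rw [Real.log_pow] at h10
    push_cast at h10
    have h11 : (0 : ℝ) ≤ 2 * n := by positivity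
    calc 2 * (n : ℝ) * Real.log (r.natAbs : ℕ) ≤ 2 * n * (2 * Real.log y) := by gcongr
      _ ≤ Real.log y * (2 * Real.log y) := by
          apply mul_le_mul_of_nonneg_right (by linarith) (by positivity)
      _ = 2 * Real.log y ^ 2 := by ring
      _ ≤ Real.log y * Real.log y ^ 2 := by gcongr; linarith
      _ = Real.log y ^ 3 := by ring
      _ ≤ v₀ := pow_le_pow_right₀ hly1 (by omega)
  have hNzero : (((R'.filter (fun t => (fun t : ℤ => t) t = 0)).card : ℕ) : ℝ) ≤ 1 := by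
    have : (R'.filter (fun t => (fun t : ℤ => t) t = 0)).card ≤ 1 := by
      rw [card_le_one]
      intro r hr r' hr'
      rw [mem_filter] at hr hr'
      have g1 : r = 0 := hr.2
      have g2 : r' = 0 := hr'.2
      rw [g1, g2]
    exact_mod_cast this
  have hv0 : 0 < v₀ := by positivity
  obtain ⟨s, hs⟩ := greedy_g S v₀ hv0 (fun p hp => by
      rw [hSdef] at hp
      exact ⟨(hS p hp).1, (hS p hp).2.1⟩) (fun p => (p - 1).gcd n) n
    (fun p _ => Nat.gcd_le_right _ hn) R'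
    (fun (p c : ℕ) (t : ℤ) => (p : ℤ) ∣ t ^ n - (c : ℤ) ^ n) (fun t : ℤ => t) (fun p hp t _ hNt => by
      rw [hSdef] at hp
      have := dvd_sub_iff_pow p (hS p hp).1 n hn t hNt
      refine le_of_eq ?_
      convert this) hNlog
  refine ⟨S, s, fun p hp => ⟨?_, hSW p hp, ?_⟩, ?_⟩
  · rw [hSdef] at hp; exact (hS p hp).1
  · rw [hSdef] at hp; exact (hS p hp).2.2
  have hsub1 : (Finset.Icc (-(L : ℤ)) L).filter (fun t => Okn n W y S t ∧
        ∀ p ∈ S, ¬ (p : ℤ) ∣ t ^ n - (s p : ℤ) ^ n) ⊆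
      R'.filter (fun t => ∀ p ∈ S, ¬ (p : ℤ) ∣ t ^ n - (s p : ℤ) ^ n) := by
    intro t ht
    rw [mem_filter] at ht
    rw [mem_filter, hR', mem_filter]
    exact ⟨⟨ht.1, ht.2.1⟩, ht.2.2⟩
  have hs' : ((R'.filter (fun t => ∀ p ∈ S, ¬ (p : ℤ) ∣ t ^ n - (s p : ℤ) ^ n)).card : ℝ) ≤
      R'.card * (3 * Real.exp (-∑ p ∈ S, (((p - 1).gcd n : ℕ) : ℝ) / p)) +
        ((R'.filter (fun t => (fun t : ℤ => t) t = 0)).card : ℕ) := by convert hs
  refine (Nat.cast_le.2 (card_le_card hsub1)).trans (hs'.trans ?_)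
  -- the value
  obtain ⟨T, hT⟩ : ∃ T : ℝ, T = t ^ (2 * κ) / (Real.log y ^ (D + κ) * Real.log t ^ κ) := ⟨_, rfl⟩
  have hTexp : Z * Real.exp (-(D * E0)) = T := by
    rw [hZ, hT, ← Real.exp_add]
    have e1 : -(κ * t + (D - κ) * (t - E0)) + -(D * E0) =
        ((2 * κ : ℕ) : ℝ) * Real.log t - (((D + κ : ℕ) : ℝ) * t + (κ : ℝ) * Real.log (Real.log t)) := by
      rw [hE0]; push_cast; ring
    rw [e1, Real.exp_sub, Real.exp_add, Real.exp_nat_mul, Real.exp_nat_mul, Real.exp_nat_mul,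
      Real.exp_log ht0, Real.exp_log hlt0, ← hLe]
  have hT0 : 0 < T := by rw [hT]; positivity
  have hexpS : Real.exp (-∑ p ∈ S, (((p - 1).gcd n : ℕ) : ℝ) / p) ≤ Real.exp C₆ * Real.exp (-(D * E0)) := by
    rw [← Real.exp_add]
    exact Real.exp_le_exp.2 (by linarith)
  have hfin1 : R'.card * (3 * Real.exp (-∑ p ∈ S, (((p - 1).gcd n : ℕ) : ℝ) / p)) ≤
      ((13 + 4 * Real.exp C₅) * (3 * Real.exp C₆)) * (L * T) := by
    calc R'.card * (3 * Real.exp (-∑ p ∈ S, (((p - 1).gcd n : ℕ) : ℝ) / p))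
        ≤ ((13 + 4 * Real.exp C₅) * (L * Z)) * (3 * (Real.exp C₆ * Real.exp (-(D * E0)))) := by gcongr
      _ = ((13 + 4 * Real.exp C₅) * (3 * Real.exp C₆)) * (L * (Z * Real.exp (-(D * E0)))) := by ring
      _ = _ := by rw [hTexp]
  have hfin2 : 1 ≤ L * T := by
    rw [hT, ← mul_div_assoc, one_le_div (by positivity)]
    have h14 : Real.log t ^ κ ≤ t ^ (2 * κ) := by
      calc Real.log t ^ κ ≤ t ^ κ := pow_le_pow_left₀ hlt0.le h5 κ
        _ ≤ t ^ (2 * κ) := pow_le_pow_right₀ h1 (by omega)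
    exact mul_le_mul ((hpow_y _ (by omega)).trans hyL) h14 (by positivity) hL0.le
  have e3 : ((13 + 4 * Real.exp C₅) * (3 * Real.exp C₆) + 1) * L * t ^ (2 * κ) /
      (Real.log y ^ (D + κ) * Real.log t ^ κ) = ((13 + 4 * Real.exp C₅) * (3 * Real.exp C₆)) * (L * T) + L * T := by
    rw [hT]; ring
  rw [e3]
  linarith

end Pool.Agent.N893.MC
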