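import Mathlib
import Pool.Agent.N893.MC.Surv2
import Pool.Agent.N893.PG.Fin

set_option autoImplicit false
set_option maxHeartbeats 4000000

/-! # The smallest prime value of `t ^ n + a`: the assembly -/

namespace Pool.Agent.N893.MC

open Finset Filter Pool.Agent.N893.QA Pool.Agent.N893.RK Pool.Agent.N893.CF

open scoped Classical

theorem mainN (n : ℕ) (hn : 1 ≤ n) (W : ℕ) (hW : 1 ≤ W) (a₀ : ℤ) :
    ∃ c : ℝ, 0 < c ∧ ∃ X₀ : ℝ, ∀ X : ℝ, X₀ ≤ X → ∀ z : ℤ,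
      ∃ a : ℤ, (z : ℝ) < a ∧ (a : ℝ) ≤ z + X ∧ (W : ℤ) ∣ a - a₀ ∧
        ∀ t : ℤ, |(t : ℝ)| ≤ c * (Real.log X * (Real.log (Real.log X)) ^ (n.divisors.card + kap n) *
          (Real.log (Real.log (Real.log (Real.log X)))) ^ (kap n) /
            (Real.log (Real.log (Real.log X))) ^ (2 * kap n)) →
        ¬ Prime (t ^ n + a) := by
  obtain ⟨C, hC, y₀, hsv⟩ := survivors_mc n hn W hW
  have hκ1 := kap_pos n
  obtain ⟨V, hV⟩ : ∃ V : ℕ → Finset ℤ, ∀ m : ℕ, V m = ({a₀ + (m : ℤ) ^ n, a₀ + (-(m : ℤ)) ^ n} : Finset ℤ) :=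
    ⟨fun m : ℕ => {a₀ + (m : ℤ) ^ n, a₀ + (-(m : ℤ)) ^ n}, fun n => rfl⟩
  have hmem : ∀ t : ℤ, a₀ + t ^ n ∈ V t.natAbs := by
    intro t
    rw [hV]
    simp only [mem_insert, mem_singleton]
    rcases Int.natAbs_eq t with h | h
    · left; rw [← h]
    · right; rw [← h]
  have hVmem : ∀ (m : ℕ) (v : ℤ), v ∈ V m → ∃ t : ℤ, t.natAbs = m ∧ v = a₀ + t ^ n := by
    intro m v hv
    rw [hV] at hv
    simp only [mem_insert, mem_singleton] at hv
    rcases hv with h | h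
    · exact ⟨m, by simp, h⟩
    · exact ⟨-m, by simp, h⟩
  have hVc : ∀ m, (V m).card ≤ 2 := by
    intro m
    rw [hV]
    exact card_le_two
  have hVb : ∀ m, ∀ v ∈ V m, |v| ≤ ((1 + n + a₀.natAbs : ℕ) : ℤ) * ((m : ℤ) + 1) ^ (1 + n + a₀.natAbs) := by
    intro m v hv
    obtain ⟨t, ht, rfl⟩ := hVmem m v hv
    have h2 : |t| = (m : ℤ) := by rw [← ht]; exact (Int.natCast_natAbs t).symm
    have h3 := abs_add_le a₀ (t ^ n)
    have hm0 : (0 : ℤ) ≤ m := by positivity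
    have hx : (1 : ℤ) ≤ (m : ℤ) + 1 := by linarith
    have e0 : |t ^ n| ≤ ((m : ℤ) + 1) ^ (1 + n + a₀.natAbs) := by
      rw [abs_pow, h2]
      exact (pow_le_pow_left₀ hm0 (by linarith) n).trans (pow_le_pow_right₀ hx (by omega))
    have e2 : 1 ≤ ((m : ℤ) + 1) ^ (1 + n + a₀.natAbs) := one_le_pow₀ hx
    have e3 : |a₀| ≤ |a₀| * ((m : ℤ) + 1) ^ (1 + n + a₀.natAbs) := le_mul_of_one_le_right (abs_nonneg _) e2
    have e5 : 0 ≤ (n : ℤ) * ((m : ℤ) + 1) ^ (1 + n + a₀.natAbs) := by positivity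
    push_cast
    rw [← Int.natCast_natAbs a₀] at e3 h3
    push_cast at e3 h3 ⊢
    rw [add_mul, add_mul, one_mul]
    linarith
  obtain ⟨c, hc, X₁, hasm⟩ := assemble_gen W hW 2 V hVc (1 + n + a₀.natAbs) hVb (n.divisors.card + kap n)
    (kap n) (2 * kap n) (by omega) (by omega) (by
      refine ⟨C, hC, y₀, fun y hy L hyL hLy => ?_⟩
      obtain ⟨S, s, hS, hs⟩ := hsv y hy L hyL hLy
      -- the classes
      have hβ : ∀ p : ℕ, ∃ β : ℕ, (p.Prime → ¬ p ∣ W →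
          (p : ℤ) ∣ (W : ℤ) * β - (if p ∈ S then -(a₀ + (s p : ℤ) ^ n) else -(a₀ + 1))) := by
        intro p
        by_cases h : p.Prime ∧ ¬ p ∣ W
        · obtain ⟨β, hβ⟩ := inv_nat p h.1 W (fun h' => h.2 (Int.natCast_dvd_natCast.1 h'))
            (if p ∈ S then -(a₀ + (s p : ℤ) ^ n) else -(a₀ + 1))
          exact ⟨β, fun _ _ => hβ⟩
        · exact ⟨0, fun h1 h2 => absurd ⟨h1, h2⟩ h⟩
      choose β hβ using hβ
      refine ⟨β, ?_⟩
      refine le_trans ?_ hs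
      have hsub : ((range (L + 1)).biUnion V).filter (fun a => ∀ p : ℕ, p.Prime → (p : ℝ) ≤ y →
          ¬ (p : ℤ) ∣ (W : ℤ) * (β p : ℤ) + a) ⊆
          ((Finset.Icc (-(L : ℤ)) L).filter (fun t => Okn n W y S t ∧
            ∀ p ∈ S, ¬ (p : ℤ) ∣ t ^ n - (s p : ℤ) ^ n)).image (fun t => a₀ + t ^ n) := by
        intro v hv
        rw [mem_filter, mem_biUnion] at hv
        obtain ⟨⟨m, hm, hvm⟩, hall⟩ := hv
        obtain ⟨t, ht, rfl⟩ := hVmem m v hvm
        rw [mem_range] at hm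
        rw [mem_image]
        refine ⟨t, mem_filter.2 ⟨mem_Icc.2 (by omega), ?_, ?_⟩, rfl⟩
        · intro p hp hpW hpy hpS hd
          apply hall p hp hpy
          have h1 := hβ p hp hpW
          rw [if_neg hpS] at h1
          have h3 := dvd_add h1 hd
          refine h3.trans (dvd_of_eq ?_)
          ring
        · intro p hpS hd
          obtain ⟨hp, hpW, hpy⟩ := hS p hpS
          apply hall p hp hpy
          have h1 := hβ p hp hpW
          rw [if_pos hpS] at h1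
          have h3 := dvd_add h1 hd
          refine h3.trans (dvd_of_eq ?_)
          ring
      have h2 : ((((range (L + 1)).biUnion V).filter (fun a => ∀ p : ℕ, p.Prime → (p : ℝ) ≤ y →
          ¬ (p : ℤ) ∣ (W : ℤ) * (β p : ℤ) + a)).card) ≤
          ((Finset.Icc (-(L : ℤ)) L).filter (fun t => Okn n W y S t ∧
            ∀ p ∈ S, ¬ (p : ℤ) ∣ t ^ n - (s p : ℤ) ^ n)).card := (card_le_card hsub).trans card_image_le
      exact_mod_cast h2)
  -- from `X` to `X / (2 W)`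
  have hWr : (1 : ℝ) ≤ W := by exact_mod_cast hW
  set δ : ℝ := 1 / (2 * W) with hδ
  have hδ0 : 0 < δ := by positivity
  have hδ1 : δ ≤ 1 := by rw [hδ, div_le_one (by positivity)]; linarith
  obtain ⟨X₂, hsc⟩ := PG.scale_F δ hδ0 hδ1 (n.divisors.card + kap n) (kap n) (2 * kap n)
  refine ⟨c / 2 ^ (1 + (n.divisors.card + kap n) + kap n), by positivity, max X₂ (max (2 * W * X₁) (8 * W)),
    fun X hX z => ?_⟩
  have hX2 := hsc X ((le_max_left _ _).trans hX)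
  have hXa : 2 * W * X₁ ≤ X := (le_max_left _ _).trans ((le_max_right _ _).trans hX)
  have hXb : 8 * (W : ℝ) ≤ X := (le_max_right _ _).trans ((le_max_right _ _).trans hX)
  have hX1 : X₁ ≤ δ * X := by
    rw [hδ, div_mul_eq_mul_div, one_mul, le_div_iff₀ (by positivity)]
    linarith
  obtain ⟨m, hm1, hm2, hm⟩ := hasm (δ * X) hX1 ((z - a₀) / W)
  have hWz : (0 : ℤ) < W := by exact_mod_cast hW
  have hz1 : W * ((z - a₀) / W) ≤ z - a₀ := Int.mul_ediv_self_le hWz.ne'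
  have hz2 : z - a₀ < W * ((z - a₀) / W) + W := Int.lt_mul_ediv_self_add hWz
  have hz1r : (W : ℝ) * (((z - a₀) / W : ℤ) : ℝ) ≤ z - a₀ := by exact_mod_cast hz1
  have hz2r : (z : ℝ) - a₀ < W * (((z - a₀) / W : ℤ) : ℝ) + W := by exact_mod_cast hz2
  have hWX : (W : ℝ) * (δ * X) = X / 2 := by rw [hδ]; field_simp
  have hW0 : (0 : ℝ) < W := by linarith
  refine ⟨W * m + a₀, ?_, ?_, ⟨m, by ring⟩, ?_⟩
  · push_cast
    have h1 := mul_lt_mul_of_pos_left hm1 hW0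
    have h2 : (W : ℝ) * ((((z - a₀) / W : ℤ) : ℝ) + δ * X / 4) = W * (((z - a₀) / W : ℤ) : ℝ) + (W * (δ * X)) / 4 := by
      ring
    rw [h2, hWX] at h1
    linarith
  · push_cast
    have h1 := mul_le_mul_of_nonneg_left hm2 hW0.le
    rw [mul_add, hWX] at h1
    linarith
  · intro t ht
    have h1 : ((t.natAbs : ℕ) : ℝ) = |(t : ℝ)| := by rw [Nat.cast_natAbs]; push_cast; rfl
    have h2 := hm t.natAbs (by
      rw [h1]
      refine ht.trans ?_
      rw [div_mul_eq_mul_div, div_le_iff₀ (by positivity), mul_assoc c,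
        mul_comm _ ((2 : ℝ) ^ (1 + (n.divisors.card + kap n) + kap n))]
      exact mul_le_mul_of_nonneg_left hX2 hc.le) _ (hmem t)
    intro hp
    apply h2
    have h3 : (W : ℤ) * m + (a₀ + t ^ n) = t ^ n + (W * m + a₀) := by ring
    rw [h3]
    exact hp

end Pool.Agent.N893.MC
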